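import Pool.Agent.Helper62.SDP.Data

/-!
# The kernel check
-/

namespace Pool.Agent.Helper62.SDP

theorem stat_ok : stat (2 ^ 127) (2 ^ 42) 10 F0 (F0 :: FR) bls = true := by decide +kernel

theorem chk_ok : chk (2 ^ 128) (2 ^ 127) 11 2541 (2 ^ 43) (2 ^ 42) 11 F0 (F0 :: FR) bls = true := by
  decide +kernel

end Pool.Agent.Helper62.SDP
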