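import Pool.Agent.Helper62.SDP.Sound

/-!
# Geometry: positivity of the three point sums
-/

namespace Pool.Agent.Helper62.SDP

open Finset

/-! ### univariate values -/

/-- value of a column at `x` -/
noncomputable def pv (W H : ℕ) (x : ℝ) : ℕ → ℕ → ℕ → ℝ
  | 0, _, _ => 0
  | n + 1, r, N => (((N % W : ℕ) : ℝ) - H) * x ^ r + pv W H x n (r + 1) (N / W)

/-- sum of the products of the values of the columns -/
noncomputable def ss (W H : ℕ) : List ℕ → ℕ → ℕ → ℝ → ℝ → ℝ
  | [], _, _, _, _ => 0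
  | N :: cs, n, r, x, y => pv W H x n r N * pv W H y n r N + ss W H cs (n - 1) (r + 1) x y

theorem ss_comm (W H : ℕ) (cs : List ℕ) (n r : ℕ) (x y : ℝ) : ss W H cs n r x y = ss W H cs n r y x := by
  induction cs generalizing n r with
  | nil => rfl
  | cons N cs ih => rw [ss, ss, ih, mul_comm]

theorem S_colP_sq (W H : ℕ) (δ : ℕ → ℕ → ℕ → ℝ) (f : ℕ → Mo) (x : ℝ)
    (h : ∀ i, δ (f i).i (f i).j (f i).k = x ^ i) (n r N : ℕ) :
    S δ (colP W H (sq f n r) N) = pv W H x n r N := by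
  induction n generalizing r N with
  | zero => rfl
  | succ n ih =>
    rw [sq_succ, colP, S_cons, pv, ih, h]
    push_cast
    rfl

theorem sq_tail (f : ℕ → Mo) (n r : ℕ) : (sq f n r).tail = sq f (n - 1) (r + 1) := by
  cases n <;> rfl

theorem S_uvP_sq (W H : ℕ) (δ : ℕ → ℕ → ℕ → ℝ) (hδ : Mul3 δ) (f g : ℕ → Mo) (x y : ℝ)
    (h : ∀ i, δ (f i).i (f i).j (f i).k = x ^ i) (h' : ∀ i, δ (g i).i (g i).j (g i).k = y ^ i)
    (cs : List ℕ) (n r : ℕ) :
    S δ (uvP W H cs (sq f n r) (sq g n r)) = ss W H cs n r x y := by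
  induction cs generalizing n r with
  | nil => rfl
  | cons N cs ih =>
    rw [uvP, S_append, S_mulP hδ, S_colP_sq W H δ f x h, S_colP_sq W H δ g y h', sq_tail, sq_tail, ih, ss]

/-- sums of squares are nonnegative -/
theorem S_uvP_nonneg (W H : ℕ) (δ : ℕ → ℕ → ℕ → ℝ) (hδ : Mul3 δ) (cs : List ℕ) (ms : List Mo) :
    0 ≤ S δ (uvP W H cs ms ms) := by
  induction cs generalizing ms with
  | nil => exact le_rfl
  | cons N cs ih =>
    rw [uvP, S_append, S_mulP hδ]
    exact add_nonneg (mul_self_nonneg _) (ih _)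

/-! ### the valuation of a triple -/

/-- `u^i v^j t^k` -/
def dl (u v t : ℝ) (i j k : ℕ) : ℝ := u ^ i * v ^ j * t ^ k

theorem dl_mul (u v t : ℝ) : Mul3 (dl u v t) := by
  intro i j k i' j' k'
  unfold dl
  ring

theorem dl_x (u v t : ℝ) : S (dl u v t) xP = t - u * v := by
  simp [xP, dl]
  ring

theorem dl_r (u v t : ℝ) : S (dl u v t) rP = (1 - u ^ 2) * (1 - v ^ 2) := by
  simp [rP, dl]
  ring

theorem dl_y (u v t : ℝ) : S (dl u v t) yP = 1 - t ^ 2 := by
  simp [yP, dl]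
  ring

theorem dl_c (u v t : ℝ) (c : ℤ) : S (dl u v t) (cP c) = c := by
  simp [cP, dl]

/-- value of the three point polynomial -/
theorem S_phP_cons (W H : ℕ) (u v t : ℝ) (cs : List ℕ) (l : List (List ℕ)) (n : ℕ) (q0 q1 : List Tm) :
    S (dl u v t) (phP W H (cs :: l) n q0 q1) =
      S (dl u v t) q0 * ss W H cs n 0 u v + S (dl u v t) (phP W H l (n - 1) q1 (nxQ q0 q1)) := by
  rw [phP, S_append, S_mulP (dl_mul u v t), S_uvP_sq W H _ (dl_mul u v t) mU mV u v]
  · intro i; simp [mU, dl]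
  · intro i; simp [mV, dl]

theorem S_nxQ (u v t : ℝ) (q0 q1 : List Tm) :
    S (dl u v t) (nxQ q0 q1) = 2 * ((t - u * v) * S (dl u v t) q1) -
      (1 - u ^ 2) * (1 - v ^ 2) * S (dl u v t) q0 := by
  rw [nxQ, S_append, S_mulP (dl_mul u v t), S_mulP (dl_mul u v t), S_mulP (dl_mul u v t),
    S_mulP (dl_mul u v t), dl_c, dl_c, dl_x, dl_r]
  push_cast
  ring

/-- if `u = 1` or `v = 1` and `t = u v` only the first term remains -/
theorem S_phP_zero (W H : ℕ) (u v t : ℝ)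
    (l : List (List ℕ)) (n : ℕ) (q0 q1 : List Tm) (h1 : S (dl u v t) q0 = 0) (h2 : S (dl u v t) q1 = 0) :
    S (dl u v t) (phP W H l n q0 q1) = 0 := by
  induction l generalizing n q0 q1 with
  | nil => rfl
  | cons cs l ih =>
    rw [S_phP_cons, h1, ih (n - 1) q1 _ h2 (by rw [S_nxQ, h1, h2]; ring)]
    ring

theorem S_phP_first (W H : ℕ) (u v t : ℝ) (hx : t - u * v = 0) (hr : (1 - u ^ 2) * (1 - v ^ 2) = 0)
    (cs : List ℕ) (l : List (List ℕ)) (n : ℕ) :
    S (dl u v t) (phP W H (cs :: l) n oP xP) = ss W H cs n 0 u v := by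
  have e0 : S (dl u v t) oP = 1 := by
    have := dl_c u v t 1
    rw [Int.cast_one] at this
    exact this
  have e1 : S (dl u v t) xP = 0 := by rw [dl_x, hx]
  have e2 : S (dl u v t) (nxQ oP xP) = 0 := by rw [S_nxQ, e1, e0, hr]; ring
  rw [S_phP_cons, e0, S_phP_zero W H u v t l (n - 1) xP _ e1 e2]
  ring

/-- the diagonal `u = v`, `t = 1` -/
theorem S_phP_diag (W H : ℕ) (a b t : ℝ) (l : List (List ℕ)) (n : ℕ) (q0 q1 q : List Tm)
    (h0 : S (dl t t 1) q0 = S (dl a b t) q) (h1 : S (dl t t 1) q1 = (1 - t ^ 2) * S (dl a b t) q) :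
    S (dl t t 1) (phP W H l n q0 q1) = S (dl a b t) (fP W H l n q) := by
  induction l generalizing n q0 q1 q with
  | nil => rfl
  | cons cs l ih =>
    rw [S_phP_cons, fP, S_append, S_mulP (dl_mul a b t), S_uvP_sq W H _ (dl_mul a b t) mT mT t t
      (fun i => by simp [mT, dl]) (fun i => by simp [mT, dl]), h0]
    congr 1
    refine ih (n - 1) q1 _ (mulP yP q) ?_ ?_
    · rw [h1, S_mulP (dl_mul a b t), dl_y]
    · rw [S_nxQ, h1, h0, S_mulP (dl_mul a b t), dl_y]
      ring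

/-! ### positivity -/

section
variable {n : ℕ}

theorem psd (w : Fin n → ℂ) (p : Fin n → ℝ) (k : ℕ) :
    0 ≤ ∑ a, ∑ b, ((w a * (starRingEnd ℂ) (w b)) ^ k).re * (p a * p b) := by
  have e : ((∑ a, (p a : ℂ) * w a ^ k) * (starRingEnd ℂ) (∑ a, (p a : ℂ) * w a ^ k)).re =
      ∑ a, ∑ b, ((w a * (starRingEnd ℂ) (w b)) ^ k).re * (p a * p b) := by
    rw [map_sum, Finset.sum_mul_sum, Complex.re_sum]
    refine Finset.sum_congr rfl fun a _ => ?_
    rw [Complex.re_sum]
    refine Finset.sum_congr rfl fun b _ => ?_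
    have e1 : (p a : ℂ) * w a ^ k * (starRingEnd ℂ) ((p b : ℂ) * w b ^ k) =
        ((p a * p b : ℝ) : ℂ) * (w a * (starRingEnd ℂ) (w b)) ^ k := by
      rw [map_mul, map_pow, Complex.conj_ofReal]
      push_cast
      ring
    rw [e1, Complex.re_ofReal_mul]
    ring
  rw [← e, Complex.mul_conj]
  rw [Complex.ofReal_re]
  exact Complex.normSq_nonneg _

theorem psd_ss (W H : ℕ) (w : Fin n → ℂ) (s : Fin n → ℝ) (k : ℕ) (cs : List ℕ) (m r : ℕ) :
    0 ≤ ∑ a, ∑ b, ((w a * (starRingEnd ℂ) (w b)) ^ k).re * ss W H cs m r (s a) (s b) := by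
  induction cs generalizing m r with
  | nil => simp [ss]
  | cons N cs ih =>
    have e : ∑ a, ∑ b, ((w a * (starRingEnd ℂ) (w b)) ^ k).re * ss W H (N :: cs) m r (s a) (s b) =
        (∑ a, ∑ b, ((w a * (starRingEnd ℂ) (w b)) ^ k).re * (pv W H (s a) m r N * pv W H (s b) m r N)) +
          ∑ a, ∑ b, ((w a * (starRingEnd ℂ) (w b)) ^ k).re * ss W H cs (m - 1) (r + 1) (s a) (s b) := by
      rw [← Finset.sum_add_distrib]
      refine Finset.sum_congr rfl fun a _ => ?_
      rw [← Finset.sum_add_distrib]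
      refine Finset.sum_congr rfl fun b _ => ?_
      rw [ss]
      ring
    rw [e]
    exact add_nonneg (psd w (fun a => pv W H (s a) m r N) k) (ih _ _)

theorem psd_ph (W H : ℕ) (w : Fin n → ℂ) (s : Fin n → ℝ) (t : Fin n → Fin n → ℝ)
    (h1 : ∀ a b, (w a * (starRingEnd ℂ) (w b)).re = t a b - s a * s b)
    (h2 : ∀ a, Complex.normSq (w a) = 1 - s a ^ 2)
    (l : List (List ℕ)) (m k : ℕ) (q0 q1 : List Tm)
    (e0 : ∀ a b, S (dl (s a) (s b) (t a b)) q0 = ((w a * (starRingEnd ℂ) (w b)) ^ k).re)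
    (e1 : ∀ a b, S (dl (s a) (s b) (t a b)) q1 = ((w a * (starRingEnd ℂ) (w b)) ^ (k + 1)).re) :
    0 ≤ ∑ a, ∑ b, S (dl (s a) (s b) (t a b)) (phP W H l m q0 q1) := by
  induction l generalizing m k q0 q1 with
  | nil => simp [phP]
  | cons cs l ih =>
    have e : ∑ a, ∑ b, S (dl (s a) (s b) (t a b)) (phP W H (cs :: l) m q0 q1) =
        (∑ a, ∑ b, ((w a * (starRingEnd ℂ) (w b)) ^ k).re * ss W H cs m 0 (s a) (s b)) +
          ∑ a, ∑ b, S (dl (s a) (s b) (t a b)) (phP W H l (m - 1) q1 (nxQ q0 q1)) := by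
      rw [← Finset.sum_add_distrib]
      refine Finset.sum_congr rfl fun a _ => ?_
      rw [← Finset.sum_add_distrib]
      refine Finset.sum_congr rfl fun b _ => ?_
      rw [S_phP_cons, e0]
    rw [e]
    refine add_nonneg (psd_ss W H w s k cs m 0) (ih (m - 1) (k + 1) q1 _ e1 fun a b => ?_)
    rw [S_nxQ, e0, e1, ← h1, ← h2, ← h2]
    have e5 : Complex.normSq (w a) * Complex.normSq (w b) =
        Complex.normSq (w a * (starRingEnd ℂ) (w b)) := by
      rw [map_mul, Complex.normSq_conj]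
    rw [e5]
    generalize w a * (starRingEnd ℂ) (w b) = z
    have e6 : z ^ (k + 1 + 1) = z ^ (k + 1) * z := pow_succ _ _
    have e7 : z ^ (k + 1) = z ^ k * z := pow_succ _ _
    rw [e6, e7]
    generalize z ^ k = y
    simp only [Complex.mul_re, Complex.mul_im, Complex.normSq_apply]
    ring

end

/-! ### the configuration -/

theorem exists_w {n : ℕ} (x : Fin n → EuclideanSpace ℝ (Fin 3)) (hx : ∀ i, ‖x i‖ = 1) (c : Fin n) :
    ∃ w : Fin n → ℂ, ∀ a b, (w a * (starRingEnd ℂ) (w b)).re =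
      inner ℝ (x a) (x b) - inner ℝ (x a) (x c) * inner ℝ (x b) (x c) := by
  have h1 : Orthonormal ℝ (({0} : Set (Fin 3)).domRestrict fun _ : Fin 3 => x c) := by
    constructor
    · intro i
      exact hx c
    · intro i j hij
      exact absurd (Subsingleton.elim i j) hij
  obtain ⟨b, hb⟩ := h1.exists_orthonormalBasis_extension_of_card_eq (by simp)
  have hb0 : b 0 = x c := hb 0 rfl
  refine ⟨fun a => ⟨inner ℝ (x a) (b 1), inner ℝ (x a) (b 2)⟩, fun a a' => ?_⟩
  have e := b.sum_inner_mul_inner (x a) (x a')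
  rw [Fin.sum_univ_three, hb0] at e
  rw [← e, Complex.mul_re, Complex.conj_re, Complex.conj_im, real_inner_comm (x a') (x c),
    real_inner_comm (x a') (b 1), real_inner_comm (x a') (b 2)]
  ring

end Pool.Agent.Helper62.SDP
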