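import Pool.Agent.Helper62.SDP.Poly

/-!
# Kernel functions (explicit recursors, forced evaluation) and their meaning
-/

namespace Pool.Agent.Helper62.SDP

universe w

noncomputable section

/-! ### forcing -/

/-- force a natural number -/
def fN {α : Type w} (n : ℕ) (k : ℕ → α) : α :=
  Nat.rec (motive := fun _ => α) (k 0) (fun m _ => k (Nat.succ m)) n

theorem fN_eq {α : Type w} (n : ℕ) (k : ℕ → α) : fN n k = k n := by cases n <;> rfl

/-- force an integer -/
def fI {α : Type w} (x : Int) (k : Int → α) : α :=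
  Int.rec (motive := fun _ => α) (fun n => fN n fun n => k (Int.ofNat n))
    (fun n => fN n fun n => k (Int.negSucc n)) x

theorem fI_eq {α : Type w} (x : Int) (k : Int → α) : fI x k = k x := by
  cases x <;> simp only [fI, fN_eq]

/-- force a list -/
def fL {β : Type} {α : Type w} (l : List β) (k : List β → α) : α :=
  List.rec (motive := fun _ => α) (k []) (fun a l _ => k (a :: l)) l

theorem fL_eq {β : Type} {α : Type w} (l : List β) (k : List β → α) : fL l k = k l := by cases l <;> rfl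

/-! ### integers -/

/-- `-n` -/
def negN (n : ℕ) : Int :=
  Nat.rec (motive := fun _ => Int) (Int.ofNat 0) (fun n _ => Int.negSucc n) n

theorem negN_eq (n : ℕ) : negN n = -(n : ℤ) := by cases n <;> rfl

/-- `m - n` -/
def sN (m n : ℕ) : Int :=
  Nat.rec (motive := fun _ => Int) (Int.ofNat (Nat.sub m n)) (fun n _ => Int.negSucc n) (Nat.sub n m)

theorem sN_eq (m n : ℕ) : sN m n = (m : ℤ) - n := by
  have h0 : sN m n = Nat.rec (motive := fun _ => Int) (Int.ofNat (Nat.sub m n))
    (fun n _ => Int.negSucc n) (Nat.sub n m) := rfl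
  rw [h0]
  have e1 : Nat.sub n m = n - m := rfl
  have e2 : Nat.sub m n = m - n := rfl
  rw [e1, e2]
  rcases hk : n - m with _ | k
  · show ((m - n : ℕ) : ℤ) = _
    omega
  · show Int.negSucc k = _
    rw [Int.negSucc_eq]
    omega

/-- product -/
def imul (a b : Int) : Int :=
  Int.rec (motive := fun _ => Int)
    (fun m => Int.rec (motive := fun _ => Int) (fun n => Int.ofNat (Nat.mul m n))
      (fun n => negN (Nat.mul m (Nat.succ n))) b)
    (fun m => Int.rec (motive := fun _ => Int) (fun n => negN (Nat.mul (Nat.succ m) n))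
      (fun n => Int.ofNat (Nat.mul (Nat.succ m) (Nat.succ n))) b) a

theorem imul_eq (a b : ℤ) : imul a b = a * b := by
  rcases a with a | a <;> rcases b with b | b
  · rfl
  · show negN (a * (b + 1)) = (a : ℤ) * _
    rw [negN_eq, Int.negSucc_eq]
    push_cast
    ring
  · show negN ((a + 1) * b) = _ * (b : ℤ)
    rw [negN_eq, Int.negSucc_eq]
    push_cast
    ring
  · show (((a + 1) * (b + 1) : ℕ) : ℤ) = _
    rw [Int.negSucc_eq, Int.negSucc_eq]
    push_cast
    ring

/-- sum -/
def iadd (a b : Int) : Int :=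
  Int.rec (motive := fun _ => Int)
    (fun m => Int.rec (motive := fun _ => Int) (fun n => Int.ofNat (Nat.add m n))
      (fun n => sN m (Nat.succ n)) b)
    (fun m => Int.rec (motive := fun _ => Int) (fun n => sN n (Nat.succ m))
      (fun n => Int.negSucc (Nat.succ (Nat.add m n))) b) a

theorem iadd_eq (a b : ℤ) : iadd a b = a + b := by
  rcases a with a | a <;> rcases b with b | b
  · rfl
  · show sN a (b + 1) = (a : ℤ) + _
    rw [sN_eq, Int.negSucc_eq]
    push_cast
    ring
  · show sN b (a + 1) = _ + (b : ℤ)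
    rw [sN_eq, Int.negSucc_eq]
    push_cast
    ring
  · show Int.negSucc (a + b + 1) = _
    rw [Int.negSucc_eq, Int.negSucc_eq, Int.negSucc_eq]
    push_cast
    ring

/-! ### monomials, columns -/

/-- a monomial -/
structure Mo where
  i : ℕ
  j : ℕ
  k : ℕ

/-- the monomial with exponents `(i,j,k)` under the Kronecker valuation -/
def kap (B D : ℕ) (i j k : ℕ) : ℤ := ((B ^ key D i j k : ℕ) : ℤ)

theorem kap_mul (B D : ℕ) : Mul3 (kap B D) := by
  intro i j k i' j' k'
  unfold kap key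
  rw [← Nat.cast_mul, ← pow_add]
  congr 2
  ring

/-- the polynomial of a column: digits of `N` in base `W`, shifted by `H` -/
def colP (W H : ℕ) : List Mo → ℕ → List Tm
  | [], _ => []
  | m :: ms, N => ⟨((N % W : ℕ) : ℤ) - H, m.i, m.j, m.k⟩ :: colP W H ms (N / W)

/-- list of powers -/
def pws (B D : ℕ) (ms : List Mo) : List ℕ :=
  List.rec (motive := fun _ => List ℕ) [] (fun m _ ih =>
    fN (Nat.pow B (Nat.add m.i (Nat.mul D (Nat.add m.j (Nat.mul D m.k))))) fun p =>
      fL ih fun l => p :: l) ms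

theorem pws_eq (B D : ℕ) (ms : List Mo) : pws B D ms = ms.map fun m => B ^ key D m.i m.j m.k := by
  induction ms with
  | nil => rfl
  | cons m ms ih =>
    have h : pws B D (m :: ms) =
        fN (Nat.pow B (Nat.add m.i (Nat.mul D (Nat.add m.j (Nat.mul D m.k))))) fun p =>
          fL (pws B D ms) fun l => p :: l := rfl
    rw [h, fN_eq, fL_eq, ih]
    rfl

/-- sum -/
def gs (ps : List ℕ) : ℕ := List.rec (motive := fun _ => ℕ) 0 (fun p _ ih => Nat.add p ih) ps

theorem gs_cons (p : ℕ) (ps : List ℕ) : gs (p :: ps) = p + gs ps := rfl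

/-- value of a column without the shift -/
def colV (W : ℕ) (ps : List ℕ) : ℕ → ℕ :=
  List.rec (motive := fun _ => ℕ → ℕ) (fun _ => 0)
    (fun p _ ih N => fN (Nat.div N W) fun N' => Nat.add (Nat.mul (Nat.mod N W) p) (ih N')) ps

theorem colV_cons (W p : ℕ) (ps : List ℕ) (N : ℕ) :
    colV W (p :: ps) N = N % W * p + colV W ps (N / W) := by
  have h : colV W (p :: ps) N = fN (Nat.div N W) fun N' =>
    Nat.add (Nat.mul (Nat.mod N W) p) (colV W ps N') := rfl
  rw [h, fN_eq]
  rfl

theorem colV_eq (B D W H : ℕ) (ms : List Mo) (N : ℕ) :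
    (colV W (pws B D ms) N : ℤ) - H * gs (pws B D ms) = S (kap B D) (colP W H ms N) := by
  rw [pws_eq]
  induction ms generalizing N with
  | nil => simp [colV, gs, colP]
  | cons m ms ih =>
    rw [List.map_cons, colV_cons, gs_cons, colP, S_cons, ← ih]
    unfold kap
    push_cast
    ring

/-- sum of the products of the values of the columns -/
def uvV (W H : ℕ) (cs : List ℕ) : List ℕ → List ℕ → ℕ → ℕ → Int :=
  List.rec (motive := fun _ => List ℕ → List ℕ → ℕ → ℕ → Int) (fun _ _ _ _ => Int.ofNat 0)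
    (fun N _ ih ps qs g h => 
      fI (imul (sN (colV W ps N) g) (sN (colV W qs N) h)) fun x =>
      List.rec (motive := fun _ => Int) x (fun p ps' _ =>
        List.rec (motive := fun _ => Int) x (fun q qs' _ =>
          fN (Nat.sub g (Nat.mul H p)) fun g' => fN (Nat.sub h (Nat.mul H q)) fun h' =>
            iadd x (ih ps' qs' g' h')) qs) ps) cs

/-- formal sum of products -/
def uvP (W H : ℕ) : List ℕ → List Mo → List Mo → List Tm
  | [], _, _ => []
  | N :: cs, ms, ns => mulP (colP W H ms N) (colP W H ns N) ++ uvP W H cs ms.tail ns.tail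

theorem S_uvP_nil (W H : ℕ) {α : Type*} [CommRing α] {δ : ℕ → ℕ → ℕ → α} (h : Mul3 δ) (cs : List ℕ)
    (ms ns : List Mo) (h' : ms = [] ∨ ns = []) : S δ (uvP W H cs ms ns) = 0 := by
  induction cs generalizing ms ns with
  | nil => simp [uvP]
  | cons N cs ih =>
    rw [uvP, S_append, S_mulP h, ih ms.tail ns.tail (by rcases h' with rfl | rfl <;> simp)]
    rcases h' with rfl | rfl <;> simp [colP]

theorem uvV_eq (B D W H : ℕ) (cs : List ℕ) (ms ns : List Mo) (g h : ℕ)
    (hg : g = H * gs (pws B D ms)) (hh : h = H * gs (pws B D ns)) :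
    uvV W H cs (pws B D ms) (pws B D ns) g h = S (kap B D) (uvP W H cs ms ns) := by
  induction cs generalizing ms ns g h with
  | nil => simp [uvP, uvV]
  | cons N cs ih =>
    have e : uvV W H (N :: cs) (pws B D ms) (pws B D ns) g h =
      fI (imul (sN (colV W (pws B D ms) N) g) (sN (colV W (pws B D ns) N) h)) fun x =>
      List.rec (motive := fun _ => Int) x (fun p ps' _ =>
        List.rec (motive := fun _ => Int) x (fun q qs' _ =>
          fN (Nat.sub g (Nat.mul H p)) fun g' => fN (Nat.sub h (Nat.mul H q)) fun h' =>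
            iadd x (uvV W H cs ps' qs' g' h')) (pws B D ns)) (pws B D ms) := rfl
    rw [e, fI_eq, imul_eq, sN_eq, sN_eq, uvP, S_append, S_mulP (kap_mul B D), hg, hh, Nat.cast_mul,
      Nat.cast_mul, colV_eq, colV_eq]
    rcases ms with _ | ⟨m, ms⟩
    · rw [S_uvP_nil W H (kap_mul B D) cs _ _ (by simp), add_zero]
      rfl
    rcases ns with _ | ⟨n, ns⟩
    · rw [S_uvP_nil W H (kap_mul B D) cs _ _ (by simp), add_zero, pws_eq]
      rfl
    have e3 : ∀ m : Mo, ∀ ms, pws B D (m :: ms) = B ^ key D m.i m.j m.k :: pws B D ms := fun m ms => by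
      rw [pws_eq, pws_eq]; rfl
    rw [e3, e3, gs_cons, gs_cons, List.tail_cons, List.tail_cons]
    simp only [fN_eq]
    rw [iadd_eq, ih]
    · show H * (B ^ key D m.i m.j m.k + gs (pws B D ms)) - H * B ^ key D m.i m.j m.k = _
      rw [mul_add, Nat.add_sub_cancel_left]
    · show H * (B ^ key D n.i n.j n.k + gs (pws B D ns)) - H * B ^ key D n.i n.j n.k = _
      rw [mul_add, Nat.add_sub_cancel_left]

/-- square of the difference -/
def sqN (a b : ℕ) : ℕ := fN (Nat.add (Nat.sub a b) (Nat.sub b a)) fun x => Nat.mul x x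

theorem sqN_eq (a b : ℕ) : (sqN a b : ℤ) = ((a : ℤ) - b) * (a - b) := by
  have e : sqN a b = (a - b + (b - a)) * (a - b + (b - a)) := by
    show fN (Nat.add (Nat.sub a b) (Nat.sub b a)) (fun x => Nat.mul x x) = _
    rw [fN_eq]
    rfl
  rw [e]
  rcases le_total a b with h | h
  · rw [Nat.sub_eq_zero_of_le h, zero_add]
    push_cast [Nat.cast_sub h]
    ring
  · rw [Nat.sub_eq_zero_of_le h, add_zero]
    push_cast [Nat.cast_sub h]
    ring

/-- sum of the squares of the values of the columns -/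
def sqV (W H : ℕ) (cs : List ℕ) : List ℕ → ℕ → ℕ :=
  List.rec (motive := fun _ => List ℕ → ℕ → ℕ) (fun _ _ => 0)
    (fun N _ ih ps g => fN (sqN (colV W ps N) g) fun x =>
      List.rec (motive := fun _ => ℕ) x (fun p ps' _ =>
        fN (Nat.sub g (Nat.mul H p)) fun g' => Nat.add x (ih ps' g')) ps) cs

theorem sqV_eq (B D W H : ℕ) (cs : List ℕ) (ms : List Mo) (g : ℕ)
    (hg : g = H * gs (pws B D ms)) :
    (sqV W H cs (pws B D ms) g : ℤ) = S (kap B D) (uvP W H cs ms ms) := by
  induction cs generalizing ms g with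
  | nil => simp [uvP, sqV]
  | cons N cs ih =>
    have e : sqV W H (N :: cs) (pws B D ms) g =
      fN (sqN (colV W (pws B D ms) N) g) fun x =>
      List.rec (motive := fun _ => ℕ) x (fun p ps' _ =>
        fN (Nat.sub g (Nat.mul H p)) fun g' => Nat.add x (sqV W H cs ps' g')) (pws B D ms) := rfl
    rw [e, fN_eq, uvP, S_append, S_mulP (kap_mul B D), hg]
    rcases ms with _ | ⟨m, ms⟩
    · rw [S_uvP_nil W H (kap_mul B D) cs _ _ (by simp), add_zero]
      show ((sqN (colV W (pws B D []) N) (H * gs (pws B D [])) : ℕ) : ℤ) = _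
      rw [sqN_eq, Nat.cast_mul, colV_eq]
    have e3 : pws B D (m :: ms) = B ^ key D m.i m.j m.k :: pws B D ms := by
      rw [pws_eq, pws_eq]; rfl
    rw [e3, gs_cons, List.tail_cons]
    simp only [fN_eq]
    have e4 : Nat.sub (H * (B ^ key D m.i m.j m.k + gs (pws B D ms))) (Nat.mul H (B ^ key D m.i m.j m.k)) =
        H * gs (pws B D ms) := by
      show H * (B ^ key D m.i m.j m.k + gs (pws B D ms)) - H * B ^ key D m.i m.j m.k = _
      rw [mul_add, Nat.add_sub_cancel_left]
    rw [e4, ← gs_cons, ← e3]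
    show ((sqN (colV W (pws B D (m :: ms)) N) (H * gs (pws B D (m :: ms))) +
      sqV W H cs (pws B D ms) (H * gs (pws B D ms)) : ℕ) : ℤ) = _
    rw [Nat.cast_add, ih ms _ rfl, sqN_eq, Nat.cast_mul, colV_eq]

/-! ### value of a list of terms -/

/-- value -/
def tmV (B D : ℕ) (p : List Tm) : Int :=
  List.rec (motive := fun _ => Int) (Int.ofNat 0) (fun a _ ih =>
    iadd (imul a.c (Int.ofNat (Nat.pow B (Nat.add a.i (Nat.mul D (Nat.add a.j (Nat.mul D a.k))))))) ih) p

theorem tmV_eq (B D : ℕ) (p : List Tm) : tmV B D p = S (kap B D) p := by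
  induction p with
  | nil => simp [tmV]
  | cons a p ih =>
    have e : tmV B D (a :: p) = iadd (imul a.c (Int.ofNat
      (Nat.pow B (Nat.add a.i (Nat.mul D (Nat.add a.j (Nat.mul D a.k))))))) (tmV B D p) := rfl
    rw [e, iadd_eq, imul_eq, S_cons, ih]
    rfl

/-! ### the blocks -/

/-- a block: multiplier, monomials, columns, bounds for the exponents of the monomials -/
structure Blk where
  m : List Tm
  ms : List Mo
  cs : List ℕ
  a : ℕ
  b : ℕ
  c : ℕ

/-- sum of squares times multiplier -/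
def Blk.P (W H : ℕ) (b : Blk) : List Tm := mulP b.m (uvP W H b.cs b.ms b.ms)

/-- all blocks -/
def blsP (W H : ℕ) (l : List Blk) : List Tm := l.flatMap fun b => b.P W H

/-- value of a block -/
def blkV (B D W H : ℕ) (m : List Tm) (ms : List Mo) (cs : List ℕ) : Int :=
  fL (pws B D ms) fun ps => fN (Nat.mul H (gs ps)) fun g => fN (sqV W H cs ps g) fun x =>
    fI (tmV B D m) fun y => fI (imul y (Int.ofNat x)) fun z => z

theorem blkV_eq (B D W H : ℕ) (b : Blk) : blkV B D W H b.m b.ms b.cs = S (kap B D) (b.P W H) := by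
  unfold blkV
  rw [fL_eq, fN_eq, fN_eq, fI_eq, fI_eq, imul_eq, tmV_eq, Blk.P, S_mulP (kap_mul B D)]
  rw [← sqV_eq B D W H b.cs b.ms _ rfl]
  rfl

/-- value of all blocks -/
def blsV (B D W H : ℕ) (l : List Blk) : Int :=
  List.rec (motive := fun _ => Int) (Int.ofNat 0) (fun b _ ih => iadd (blkV B D W H b.m b.ms b.cs) ih) l

theorem blsV_eq (B D W H : ℕ) (l : List Blk) : blsV B D W H l = S (kap B D) (blsP W H l) := by
  induction l with
  | nil => simp [blsV, blsP]
  | cons b l ih =>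
    have e : blsV B D W H (b :: l) = iadd (blkV B D W H b.m b.ms b.cs) (blsV B D W H l) := rfl
    have e2 : blsP W H (b :: l) = b.P W H ++ blsP W H l := rfl
    rw [e, iadd_eq, blkV_eq, ih, e2, S_append]

/-! ### the three point part -/

/-- monomials `f r, f (r + 1), …`, in number `n` -/
def sq (f : ℕ → Mo) (n : ℕ) : ℕ → List Mo :=
  Nat.rec (motive := fun _ => ℕ → List Mo) (fun _ => [])
    (fun _ ih r => Mo.mk (f r).i (f r).j (f r).k :: ih (Nat.succ r)) n

theorem sq_zero (f : ℕ → Mo) (r : ℕ) : sq f 0 r = [] := rfl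
theorem sq_succ (f : ℕ → Mo) (n r : ℕ) : sq f (n + 1) r = f r :: sq f n (r + 1) := rfl

/-- powers of the variables -/
def mU (i : ℕ) : Mo := ⟨i, 0, 0⟩
@[inherit_doc mU] def mV (i : ℕ) : Mo := ⟨0, i, 0⟩
@[inherit_doc mU] def mT (i : ℕ) : Mo := ⟨0, 0, i⟩
@[inherit_doc mU] def m0 (_ : ℕ) : Mo := ⟨0, 0, 0⟩

/-- `x = t - u v` -/
def xP : List Tm := [⟨1, 0, 0, 1⟩, ⟨-1, 1, 1, 0⟩]
/-- `(1 - u^2) (1 - v^2)` -/
def rP : List Tm := [⟨1, 0, 0, 0⟩, ⟨-1, 2, 0, 0⟩, ⟨-1, 0, 2, 0⟩, ⟨1, 2, 2, 0⟩]
/-- `1 - t^2` -/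
def yP : List Tm := [⟨1, 0, 0, 0⟩, ⟨-1, 0, 0, 2⟩]
/-- `1` -/
def oP : List Tm := [⟨1, 0, 0, 0⟩]
/-- constant -/
def cP (c : ℤ) : List Tm := [⟨c, 0, 0, 0⟩]

/-- recurrence for `Q_k` -/
def nxQ (q0 q1 : List Tm) : List Tm := mulP (cP 2) (mulP xP q1) ++ mulP (cP (-1)) (mulP rP q0)

/-- `∑_k Q_k(u,v,t) ∑_r ℓ_r(u) ℓ_r(v)`; the number of monomials of the first list is `n` -/
def phP (W H : ℕ) : List (List ℕ) → ℕ → List Tm → List Tm → List Tm
  | [], _, _, _ => []
  | cs :: l, n, q0, q1 => mulP q0 (uvP W H cs (sq mU n 0) (sq mV n 0)) ++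
      phP W H l (n - 1) q1 (nxQ q0 q1)

/-- `∑_k (1-t^2)^k ∑_r ℓ_r(t)^2` -/
def fP (W H : ℕ) : List (List ℕ) → ℕ → List Tm → List Tm
  | [], _, _ => []
  | cs :: l, n, q => mulP q (uvP W H cs (sq mT n 0) (sq mT n 0)) ++ fP W H l (n - 1) (mulP yP q)

/-- numerical value -/
def phV (B D W H : ℕ) (x r : Int) (l : List (List ℕ)) : ℕ → Int → Int → Int :=
  List.rec (motive := fun _ => ℕ → Int → Int → Int) (fun _ _ _ => Int.ofNat 0)
    (fun cs _ ih n q0 q1 => 
      fL (pws B D (sq mU n 0)) fun ps => fL (pws B D (sq mV n 0)) fun qs =>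
      fN (Nat.mul H (gs ps)) fun g => fN (Nat.mul H (gs qs)) fun h =>
      fI (uvV W H cs ps qs g h) fun z => fI (imul q0 z) fun z' =>
      fI (iadd (imul (Int.ofNat 2) (imul x q1)) (imul (Int.negSucc 0) (imul r q0))) fun q2 =>
      fN (Nat.sub n 1) fun n' => iadd z' (ih n' q1 q2)) l

theorem phV_eq (B D W H : ℕ) (x r : ℤ) (hx : x = S (kap B D) xP) (hr : r = S (kap B D) rP)
    (l : List (List ℕ)) (n : ℕ) (q0 q1 : ℤ) (Q0 Q1 : List Tm) (h0 : q0 = S (kap B D) Q0)
    (h1 : q1 = S (kap B D) Q1) :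
    phV B D W H x r l n q0 q1 = S (kap B D) (phP W H l n Q0 Q1) := by
  induction l generalizing n q0 q1 Q0 Q1 with
  | nil => simp [phV, phP]
  | cons cs l ih =>
    have e : phV B D W H x r (cs :: l) n q0 q1 =
      fL (pws B D (sq mU n 0)) fun ps => fL (pws B D (sq mV n 0)) fun qs =>
      fN (Nat.mul H (gs ps)) fun g => fN (Nat.mul H (gs qs)) fun h =>
      fI (uvV W H cs ps qs g h) fun z => fI (imul q0 z) fun z' =>
      fI (iadd (imul (Int.ofNat 2) (imul x q1)) (imul (Int.negSucc 0) (imul r q0))) fun q2 =>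
      fN (Nat.sub n 1) fun n' => iadd z' (phV B D W H x r l n' q1 q2) := rfl
    rw [e]
    simp only [fL_eq, fN_eq, fI_eq]
    rw [iadd_eq, imul_eq, uvV_eq B D W H cs (sq mU n 0) (sq mV n 0)
      (Nat.mul H (gs (pws B D (sq mU n 0)))) (Nat.mul H (gs (pws B D (sq mV n 0)))) rfl rfl, phP, S_append,
      S_mulP (kap_mul B D), ← h0]
    congr 1
    refine ih (n - 1) q1 _ Q1 (nxQ Q0 Q1) h1 ?_
    have e2 : (Int.negSucc 0) = (-1 : ℤ) := rfl
    have e3 : (Int.ofNat 2) = (2 : ℤ) := rfl
    have e4 : ∀ c : ℤ, S (kap B D) (cP c) = c := fun c => by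
      simp [cP, kap, key]
    rw [iadd_eq, imul_eq, imul_eq, imul_eq, imul_eq, e2, e3, nxQ, S_append, S_mulP (kap_mul B D),
      S_mulP (kap_mul B D), S_mulP (kap_mul B D), S_mulP (kap_mul B D), ← hx, ← hr, ← h0, ← h1, e4, e4]

/-- numerical value -/
def fV (B D W H : ℕ) (y : Int) (l : List (List ℕ)) : ℕ → Int → Int :=
  List.rec (motive := fun _ => ℕ → Int → Int) (fun _ _ => Int.ofNat 0)
    (fun cs _ ih n q => 
      fL (pws B D (sq mT n 0)) fun ps => fN (Nat.mul H (gs ps)) fun g =>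
      fN (sqV W H cs ps g) fun z => fI (imul q (Int.ofNat z)) fun z' =>
      fI (imul y q) fun q2 =>
      fN (Nat.sub n 1) fun n' => iadd z' (ih n' q2)) l

theorem fV_eq (B D W H : ℕ) (y : ℤ) (hy : y = S (kap B D) yP)
    (l : List (List ℕ)) (n : ℕ) (q : ℤ) (Q : List Tm) (h0 : q = S (kap B D) Q) :
    fV B D W H y l n q = S (kap B D) (fP W H l n Q) := by
  induction l generalizing n q Q with
  | nil => simp [fV, fP]
  | cons cs l ih =>
    have e : fV B D W H y (cs :: l) n q =
      fL (pws B D (sq mT n 0)) fun ps => fN (Nat.mul H (gs ps)) fun g =>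
      fN (sqV W H cs ps g) fun z => fI (imul q (Int.ofNat z)) fun z' =>
      fI (imul y q) fun q2 =>
      fN (Nat.sub n 1) fun n' => iadd z' (fV B D W H y l n' q2) := rfl
    rw [e]
    simp only [fL_eq, fN_eq, fI_eq]
    rw [iadd_eq, imul_eq, imul_eq, fP, S_append, S_mulP (kap_mul B D), ← h0]
    congr 1
    · congr 1
      exact sqV_eq B D W H cs _ _ rfl
    · refine ih (n - 1) _ _ ?_
      rw [S_mulP (kap_mul B D), hy, h0]

/-! ### accumulators -/

/-- values at sorted exponents -/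
abbrev Acc : Type := List (List (List Int))

/-- add at a position -/
def add1 (n : ℕ) : Int → List Int → List Int :=
  Nat.rec (motive := fun _ => Int → List Int → List Int)
    (fun x l => List.rec (motive := fun _ => List Int) [x] (fun y ys _ => fI (iadd y x) fun z => z :: ys) l)
    (fun _ ih x l => List.rec (motive := fun _ => List Int) (fL (ih x []) fun r => Int.ofNat 0 :: r)
      (fun y ys _ => fL (ih x ys) fun r => y :: r) l) n

@[inherit_doc add1]
def add2 (n : ℕ) : ℕ → Int → List (List Int) → List (List Int) :=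
  Nat.rec (motive := fun _ => ℕ → Int → List (List Int) → List (List Int))
    (fun c x l => List.rec (motive := fun _ => List (List Int)) (fL (add1 c x []) fun r => [r])
      (fun y ys _ => fL (add1 c x y) fun r => r :: ys) l)
    (fun _ ih c x l => List.rec (motive := fun _ => List (List Int)) (fL (ih c x []) fun r => [] :: r)
      (fun y ys _ => fL (ih c x ys) fun r => y :: r) l) n

@[inherit_doc add1]
def add3 (n : ℕ) : ℕ → ℕ → Int → Acc → Acc :=
  Nat.rec (motive := fun _ => ℕ → ℕ → Int → List (List (List Int)) → List (List (List Int)))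
    (fun b c x l => List.rec (motive := fun _ => List (List (List Int))) (fL (add2 b c x []) fun r => [r])
      (fun y ys _ => fL (add2 b c x y) fun r => r :: ys) l)
    (fun _ ih b c x l => List.rec (motive := fun _ => List (List (List Int))) (fL (ih b c x []) fun r => [] :: r)
      (fun y ys _ => fL (ih b c x ys) fun r => y :: r) l) n

/-- meaning of the accumulator -/
def sem1 (E : ℕ → ℝ) : List Int → ℝ
  | [] => 0
  | x :: l => (x : ℝ) * E 0 + sem1 (fun c => E (c + 1)) l

@[inherit_doc sem1]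
def sem2 (E : ℕ → ℕ → ℝ) : List (List Int) → ℝ
  | [] => 0
  | x :: l => sem1 (E 0) x + sem2 (fun c => E (c + 1)) l

@[inherit_doc sem1]
def sem3 (E : ℕ → ℕ → ℕ → ℝ) : Acc → ℝ
  | [] => 0
  | x :: l => sem2 (E 0) x + sem3 (fun c => E (c + 1)) l

theorem sem1_add1 (n : ℕ) (x : Int) (l : List Int) (E : ℕ → ℝ) :
    sem1 E (add1 n x l) = sem1 E l + x * E n := by
  induction n generalizing l E with
  | zero =>
    rcases l with _ | ⟨y, ys⟩
    · show sem1 E [x] = _
      simp [sem1]
    · show sem1 E (fI (iadd y x) fun z => z :: ys) = _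
      rw [fI_eq, iadd_eq, sem1, sem1]
      push_cast
      ring
  | succ n ih =>
    rcases l with _ | ⟨y, ys⟩
    · show sem1 E (fL (add1 n x []) fun r => Int.ofNat 0 :: r) = _
      rw [fL_eq]
      simp [sem1, ih]
    · show sem1 E (fL (add1 n x ys) fun r => y :: r) = _
      rw [fL_eq, sem1, ih, sem1]
      ring

theorem sem2_add2 (n c : ℕ) (x : Int) (l : List (List Int)) (E : ℕ → ℕ → ℝ) :
    sem2 E (add2 n c x l) = sem2 E l + x * E n c := by
  induction n generalizing l E with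
  | zero =>
    rcases l with _ | ⟨y, ys⟩
    · show sem2 E (fL (add1 c x []) fun r => [r]) = _
      rw [fL_eq]
      simp [sem1, sem2, sem1_add1]
    · show sem2 E (fL (add1 c x y) fun r => r :: ys) = _
      rw [fL_eq, sem2, sem1_add1, sem2]
      ring
  | succ n ih =>
    rcases l with _ | ⟨y, ys⟩
    · show sem2 E (fL (add2 n c x []) fun r => [] :: r) = _
      rw [fL_eq]
      simp [sem1, sem2, ih]
    · show sem2 E (fL (add2 n c x ys) fun r => y :: r) = _
      rw [fL_eq, sem2, ih, sem2]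
      ring

theorem sem3_add3 (n b c : ℕ) (x : Int) (l : Acc) (E : ℕ → ℕ → ℕ → ℝ) :
    sem3 E (add3 n b c x l) = sem3 E l + x * E n b c := by
  induction n generalizing l E with
  | zero =>
    rcases l with _ | ⟨y, ys⟩
    · show sem3 E (fL (add2 b c x []) fun r => [r]) = _
      rw [fL_eq]
      simp [sem2, sem3, sem2_add2]
    · show sem3 E (fL (add2 b c x y) fun r => r :: ys) = _
      rw [fL_eq, sem3, sem2_add2, sem3]
      ring
  | succ n ih =>
    rcases l with _ | ⟨y, ys⟩
    · show sem3 E (fL (add3 n b c x []) fun r => [] :: r) = _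
      rw [fL_eq]
      simp [sem2, sem3, ih]
    · show sem3 E (fL (add3 n b c x ys) fun r => y :: r) = _
      rw [fL_eq, sem3, ih, sem3]
      ring

/-- sum of the absolute values -/
def abs1 (l : List Int) : ℕ := List.rec (motive := fun _ => ℕ) 0 (fun x _ ih => Nat.add (Int.natAbs x) ih) l
@[inherit_doc abs1]
def abs2 (l : List (List Int)) : ℕ := List.rec (motive := fun _ => ℕ) 0 (fun x _ ih => Nat.add (abs1 x) ih) l
@[inherit_doc abs1]
def abs3 (l : Acc) : ℕ := List.rec (motive := fun _ => ℕ) 0 (fun x _ ih => Nat.add (abs2 x) ih) l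

theorem sem1_le (M : ℝ) (l : List Int) (E : ℕ → ℝ) (h : ∀ c, |E c| ≤ M) : |sem1 E l| ≤ M * abs1 l := by
  induction l generalizing E with
  | nil => simp [sem1, abs1]
  | cons x l ih =>
    have e : abs1 (x :: l) = x.natAbs + abs1 l := rfl
    rw [sem1, e]
    push_cast
    have h1 := ih (fun c => E (c + 1)) fun c => h _
    have h3 : ((x.natAbs : ℕ) : ℝ) = |(x : ℝ)| := by
      rw [← Int.cast_natCast, Int.natCast_natAbs, Int.cast_abs]
    have h2 : |(x : ℝ) * E 0| ≤ M * |(x : ℝ)| := by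
      rw [abs_mul, mul_comm]
      exact mul_le_mul_of_nonneg_right (h 0) (abs_nonneg _)
    calc _ ≤ |(x : ℝ) * E 0| + |sem1 (fun c => E (c + 1)) l| := abs_add_le _ _
      _ ≤ M * |(x : ℝ)| + M * abs1 l := add_le_add h2 h1
      _ = _ := by rw [h3]; ring

theorem sem2_le (M : ℝ) (l : List (List Int)) (E : ℕ → ℕ → ℝ) (h : ∀ b c, |E b c| ≤ M) :
    |sem2 E l| ≤ M * abs2 l := by
  induction l generalizing E with
  | nil => simp [sem2, abs2]
  | cons x l ih =>
    have e : abs2 (x :: l) = abs1 x + abs2 l := rfl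
    rw [sem2, e]
    push_cast
    have h1 := ih (fun c => E (c + 1)) fun c => h _
    have h2 := sem1_le M x (E 0) (h 0)
    calc _ ≤ |sem1 (E 0) x| + |sem2 (fun c => E (c + 1)) l| := abs_add_le _ _
      _ ≤ M * abs1 x + M * abs2 l := add_le_add h2 h1
      _ = _ := by ring

theorem sem3_le (M : ℝ) (l : Acc) (E : ℕ → ℕ → ℕ → ℝ) (h : ∀ a b c, |E a b c| ≤ M) :
    |sem3 E l| ≤ M * abs3 l := by
  induction l generalizing E with
  | nil => simp [sem3, abs3]
  | cons x l ih =>
    have e : abs3 (x :: l) = abs2 x + abs3 l := rfl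
    rw [sem3, e]
    push_cast
    have h1 := ih (fun c => E (c + 1)) fun c => h _
    have h2 := sem2_le M x (E 0) (h 0)
    calc _ ≤ |sem2 (E 0) x| + |sem3 (fun c => E (c + 1)) l| := abs_add_le _ _
      _ ≤ M * abs2 x + M * abs3 l := add_le_add h2 h1
      _ = _ := by ring

/-- if then else -/
def bif' {α : Type w} (b : Bool) (x y : α) : α := Bool.rec (motive := fun _ => α) y x b

/-- sort three exponents -/
def srt {α : Type w} (i j k : ℕ) (K : ℕ → ℕ → ℕ → α) : α :=
  bif' (Nat.ble i j)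
    (bif' (Nat.ble j k) (K i (Nat.sub j i) (Nat.sub k j))
      (bif' (Nat.ble i k) (K i (Nat.sub k i) (Nat.sub j k))
      (K k (Nat.sub i k) (Nat.sub j i))))
    (bif' (Nat.ble i k) (K j (Nat.sub i j) (Nat.sub k i))
      (bif' (Nat.ble j k) (K j (Nat.sub k j) (Nat.sub i k))
      (K k (Nat.sub j k) (Nat.sub i j))))

/-- symmetric functions of the exponents -/
def Sy (E : ℕ → ℕ → ℕ → ℝ) : Prop := (∀ i j k, E i j k = E j i k) ∧ ∀ i j k, E i j k = E i k j

theorem srt_spec (E : ℕ → ℕ → ℕ → ℝ) (h : Sy E) (i j k : ℕ) :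
    ∃ a b c, (∀ K : ℕ → ℕ → ℕ → Acc, srt i j k K = K a b c) ∧ E i j k = E a (a + b) (a + b + c) := by
  obtain ⟨h1, h2⟩ := h
  by_cases e1 : i ≤ j
  · by_cases e2 : j ≤ k
    · refine ⟨i, j - i, k - j, fun K => ?_, ?_⟩
      · have q1 : Nat.ble i j = true := Nat.ble_eq.symm ▸ e1
        have q2 : Nat.ble j k = true := Nat.ble_eq.symm ▸ e2
        unfold srt
        rw [q1, q2]
        rfl
      · rw [Nat.add_sub_cancel' e1, Nat.add_sub_cancel' e2]
    · have q1 : Nat.ble i j = true := Nat.ble_eq.symm ▸ e1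
      have q2 : Nat.ble j k = false := by
        rw [← Bool.not_eq_true, Nat.ble_eq]; exact e2
      by_cases e3 : i ≤ k
      · have q3 : Nat.ble i k = true := Nat.ble_eq.symm ▸ e3
        refine ⟨i, k - i, j - k, fun K => ?_, ?_⟩
        · unfold srt
          rw [q1, q2, q3]
          rfl
        · rw [Nat.add_sub_cancel' e3, Nat.add_sub_cancel' (by omega : k ≤ j)]
          exact h2 i j k
      · have q3 : Nat.ble i k = false := by
          rw [← Bool.not_eq_true, Nat.ble_eq]; exact e3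
        refine ⟨k, i - k, j - i, fun K => ?_, ?_⟩
        · unfold srt
          rw [q1, q2, q3]
          rfl
        · rw [Nat.add_sub_cancel' (by omega : k ≤ i), Nat.add_sub_cancel' e1]
          rw [h2 i j k, h1 i k j]
  · have q1 : Nat.ble i j = false := by
      rw [← Bool.not_eq_true, Nat.ble_eq]; exact e1
    by_cases e3 : i ≤ k
    · have q3 : Nat.ble i k = true := Nat.ble_eq.symm ▸ e3
      refine ⟨j, i - j, k - i, fun K => ?_, ?_⟩
      · unfold srt
        rw [q1, q3]
        rfl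
      · rw [Nat.add_sub_cancel' (by omega : j ≤ i), Nat.add_sub_cancel' e3]
        exact h1 i j k
    · have q3 : Nat.ble i k = false := by
        rw [← Bool.not_eq_true, Nat.ble_eq]; exact e3
      by_cases e2 : j ≤ k
      · have q2 : Nat.ble j k = true := Nat.ble_eq.symm ▸ e2
        refine ⟨j, k - j, i - k, fun K => ?_, ?_⟩
        · unfold srt
          rw [q1, q2, q3]
          rfl
        · rw [Nat.add_sub_cancel' e2, Nat.add_sub_cancel' (by omega : k ≤ i)]
          rw [h1 i j k, h2 j i k]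
      · have q2 : Nat.ble j k = false := by
          rw [← Bool.not_eq_true, Nat.ble_eq]; exact e2
        refine ⟨k, j - k, i - j, fun K => ?_, ?_⟩
        · unfold srt
          rw [q1, q2, q3]
          rfl
        · rw [Nat.add_sub_cancel' (by omega : k ≤ j), Nat.add_sub_cancel' (by omega : j ≤ i)]
          rw [h1 i j k, h2 j i k, h1 j k i]

/-- add at exponents `i, j, k` -/
def addS (i j k : ℕ) (x : Int) (acc : Acc) : Acc := srt i j k fun a b c => add3 a b c x acc

/-- `E` in terms of the differences of the sorted exponents -/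
def Ed (E : ℕ → ℕ → ℕ → ℝ) (a b c : ℕ) : ℝ := E a (a + b) (a + b + c)

theorem sem_addS (E : ℕ → ℕ → ℕ → ℝ) (h : Sy E) (i j k : ℕ) (x : Int) (acc : Acc) :
    sem3 (Ed E) (addS i j k x acc) = sem3 (Ed E) acc + x * E i j k := by
  obtain ⟨a, b, c, h1, h2⟩ := srt_spec E h i j k
  rw [addS, h1, sem3_add3, h2]
  rfl

/-- read the digits -/
def dec (B Hb D : ℕ) (fuel : ℕ) : ℕ → ℕ → Acc → Acc :=
  Nat.rec (motive := fun _ => ℕ → ℕ → Acc → Acc) (fun _ _ acc => acc)
    (fun _ ih n V acc =>
      fN (Nat.mod V B) fun x => fN (Nat.div V B) fun V' => fN (Nat.succ n) fun n' =>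
        bif' (Nat.beq x Hb) (ih n' V' acc)
          (fI (sN x Hb) fun z => fN (Nat.div n D) fun m =>
            fL (addS (Nat.mod n D) (Nat.mod m D) (Nat.div m D) z acc) fun acc' => ih n' V' acc')) fuel

theorem sem_dec (B Hb D : ℕ) (E : ℕ → ℕ → ℕ → ℝ) (h : Sy E) (fuel n V : ℕ) (acc : Acc) :
    sem3 (Ed E) (dec B Hb D fuel n V acc) = sem3 (Ed E) acc +
      ∑ q ∈ Finset.range fuel, (((V / B ^ q % B : ℕ) : ℝ) - Hb) *
        E ((n + q) % D) ((n + q) / D % D) ((n + q) / D / D) := by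
  induction fuel generalizing n V acc with
  | zero => 
    show sem3 (Ed E) acc = _
    simp
  | succ fuel ih =>
    have e : dec B Hb D (fuel + 1) n V acc =
      fN (Nat.mod V B) fun x => fN (Nat.div V B) fun V' => fN (Nat.succ n) fun n' =>
        bif' (Nat.beq x Hb) (dec B Hb D fuel n' V' acc)
          (fI (sN x Hb) fun z => fN (Nat.div n D) fun m =>
            fL (addS (Nat.mod n D) (Nat.mod m D) (Nat.div m D) z acc) fun acc' =>
              dec B Hb D fuel n' V' acc') := rfl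
    rw [e]
    simp only [fN_eq, fI_eq, fL_eq]
    rw [Finset.sum_range_succ']
    have e1 : ∀ q, ((V / B ^ (q + 1) % B : ℕ) : ℝ) = ((V / B / B ^ q % B : ℕ) : ℝ) := fun q => by
      rw [pow_succ', Nat.div_div_eq_div_mul]
    have e2 : ∀ q, n + (q + 1) = n + 1 + q := fun q => by ring
    rw [Finset.sum_congr rfl fun q _ => by rw [e1 q, e2 q], pow_zero, Nat.div_one, add_zero]
    rcases hb : Nat.beq (Nat.mod V B) Hb with _ | _
    · show sem3 (Ed E) (dec B Hb D fuel (n + 1) (V / B)
        (addS (n % D) (n / D % D) (n / D / D) (sN (V % B) Hb) acc)) = _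
      rw [ih, sem_addS E h, sN_eq, Int.cast_sub, Int.cast_natCast, Int.cast_natCast]
      ring
    · show sem3 (Ed E) (dec B Hb D fuel (n + 1) (V / B) acc) = _
      have hb' : V % B = Hb := Nat.eq_of_beq_eq_true hb
      rw [ih, hb', sub_self, zero_mul, add_zero]

/-! ### bounds -/

theorem n1_colP (W H : ℕ) (hW : W = 2 * H) (hH : 0 < H) (ms : List Mo) (N : ℕ) :
    n1 (colP W H ms N) ≤ H * ms.length := by
  induction ms generalizing N with
  | nil => simp [colP]
  | cons m ms ih =>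
    rw [colP, n1_cons, List.length_cons, mul_add, mul_one, add_comm]
    refine add_le_add (ih _) ?_
    have : N % W < W := Nat.mod_lt _ (by omega)
    show (((N % W : ℕ) : ℤ) - H).natAbs ≤ H
    omega

theorem n1_uvP (W H : ℕ) (hW : W = 2 * H) (hH : 0 < H) (cs : List ℕ) (ms ns : List Mo) :
    n1 (uvP W H cs ms ns) ≤ cs.length * (H * ms.length * (H * ns.length)) := by
  induction cs generalizing ms ns with
  | nil => simp [uvP]
  | cons N cs ih =>
    rw [uvP, n1_append, n1_mulP, List.length_cons, add_mul, one_mul, add_comm]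
    refine add_le_add ((ih _ _).trans ?_) ?_
    · refine Nat.mul_le_mul_left _ (Nat.mul_le_mul (Nat.mul_le_mul_left _ ?_) (Nat.mul_le_mul_left _ ?_))
      · rw [List.length_tail]; omega
      · rw [List.length_tail]; omega
    · exact Nat.mul_le_mul (n1_colP W H hW hH ms N) (n1_colP W H hW hH ns N)

theorem EL_colP (W H a b c : ℕ) (ms : List Mo) (h : ∀ m ∈ ms, m.i ≤ a ∧ m.j ≤ b ∧ m.k ≤ c) (N : ℕ) :
    EL a b c (colP W H ms N) := by
  induction ms generalizing N with
  | nil => exact EL_nil _ _ _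
  | cons m ms ih =>
    exact EL_cons (h m (by simp)) (ih (fun m hm => h m (List.mem_cons_of_mem _ hm)) _)

theorem EL_uvP (W H a b c a' b' c' : ℕ) (cs : List ℕ) (ms ns : List Mo)
    (h : ∀ m ∈ ms, m.i ≤ a ∧ m.j ≤ b ∧ m.k ≤ c) (h' : ∀ m ∈ ns, m.i ≤ a' ∧ m.j ≤ b' ∧ m.k ≤ c') :
    EL (a + a') (b + b') (c + c') (uvP W H cs ms ns) := by
  induction cs generalizing ms ns with
  | nil => exact EL_nil _ _ _
  | cons N cs ih =>
    exact ((EL_colP W H a b c ms h N).mulP (EL_colP W H a' b' c' ns h' N)).append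
      (ih _ _ (fun m hm => h m (List.mem_of_mem_tail hm)) (fun m hm => h' m (List.mem_of_mem_tail hm)))

theorem sq_length (f : ℕ → Mo) (n r : ℕ) : (sq f n r).length = n := by
  induction n generalizing r with
  | zero => rfl
  | succ n ih => rw [sq_succ, List.length_cons, ih]

theorem mem_sq (f : ℕ → Mo) (n r : ℕ) (m : Mo) (h : m ∈ sq f n r) : ∃ i, r ≤ i ∧ i < r + n ∧ m = f i := by
  induction n generalizing r with
  | zero => simp [sq_zero] at h
  | succ n ih =>
    rw [sq_succ] at h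
    rcases List.mem_cons.1 h with rfl | h
    · exact ⟨r, le_rfl, by omega, rfl⟩
    · obtain ⟨i, h1, h2, h3⟩ := ih _ h
      exact ⟨i, by omega, by omega, h3⟩

/-- bound for the coefficients of `phP` -/
def nph (K : ℕ) : ℕ → ℕ → ℕ → ℕ
  | 0, _, _ => 0
  | l + 1, a, b => a * K + nph K l b (4 * b + 4 * a)

theorem nph_mono (K l a b a' b' : ℕ) (h : a ≤ a') (h' : b ≤ b') : nph K l a b ≤ nph K l a' b' := by
  induction l generalizing a b a' b' with
  | zero => exact le_rfl
  | succ l ih =>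
    exact add_le_add (Nat.mul_le_mul_right _ h) (ih _ _ _ _ h' (by omega))

theorem n1_nxQ (q0 q1 : List Tm) : n1 (nxQ q0 q1) = 4 * n1 q1 + 4 * n1 q0 := by
  have e1 : n1 (cP 2) = 2 := rfl
  have e2 : n1 (cP (-1)) = 1 := rfl
  have e3 : n1 xP = 2 := rfl
  have e4 : n1 rP = 4 := rfl
  rw [nxQ, n1_append, n1_mulP, n1_mulP, n1_mulP, n1_mulP, e1, e2, e3, e4]
  ring

theorem n1_phP (W H L : ℕ) (hW : W = 2 * H) (hH : 0 < H) (l : List (List ℕ)) (n : ℕ) (q0 q1 : List Tm)
    (hn : n ≤ L) (hl : ∀ cs ∈ l, cs.length ≤ L) :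
    n1 (phP W H l n q0 q1) ≤ nph (L * (H * L * (H * L))) l.length (n1 q0) (n1 q1) := by
  induction l generalizing n q0 q1 with
  | nil => simp [phP]
  | cons cs l ih =>
    rw [phP, n1_append, n1_mulP, List.length_cons, nph]
    refine add_le_add (Nat.mul_le_mul_left _ ?_) ?_
    · refine (n1_uvP W H hW hH _ _ _).trans ?_
      rw [sq_length, sq_length]
      exact Nat.mul_le_mul (hl cs (by simp)) (Nat.mul_le_mul (Nat.mul_le_mul_left _ hn)
        (Nat.mul_le_mul_left _ hn))
    · refine (ih _ _ _ (by omega) (fun cs hcs => hl cs (List.mem_cons_of_mem _ hcs))).trans ?_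
      rw [n1_nxQ]

/-- bound for the coefficients of `fP` -/
def nf (K : ℕ) : ℕ → ℕ → ℕ
  | 0, _ => 0
  | l + 1, a => a * K + nf K l (2 * a)

theorem n1_fP (W H L : ℕ) (hW : W = 2 * H) (hH : 0 < H) (l : List (List ℕ)) (n : ℕ) (q : List Tm)
    (hn : n ≤ L) (hl : ∀ cs ∈ l, cs.length ≤ L) :
    n1 (fP W H l n q) ≤ nf (L * (H * L * (H * L))) l.length (n1 q) := by
  induction l generalizing n q with
  | nil => simp [fP]
  | cons cs l ih =>
    rw [fP, n1_append, n1_mulP, List.length_cons, nf]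
    refine add_le_add (Nat.mul_le_mul_left _ ?_) ?_
    · refine (n1_uvP W H hW hH _ _ _).trans ?_
      rw [sq_length]
      exact Nat.mul_le_mul (hl cs (by simp)) (Nat.mul_le_mul (Nat.mul_le_mul_left _ hn)
        (Nat.mul_le_mul_left _ hn))
    · have e : n1 (mulP yP q) = 2 * n1 q := by rw [n1_mulP]; rfl
      rw [← e]
      exact ih _ _ (by omega) (fun cs hcs => hl cs (List.mem_cons_of_mem _ hcs))

theorem EL_nxQ (a : ℕ) (q0 q1 : List Tm) (h0 : EL a a a q0) (h1 : EL (a + 1) (a + 1) (a + 1) q1) :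
    EL (a + 1 + 1) (a + 1 + 1) (a + 1 + 1) (nxQ q0 q1) := by
  have e1 : ∀ c, EL 0 0 0 (cP c) := fun c => EL_cons ⟨le_rfl, le_rfl, le_rfl⟩ (EL_nil _ _ _)
  have e2 : EL 1 1 1 xP := EL_cons (by simp) (EL_cons (by simp) (EL_nil _ _ _))
  have e3 : EL 2 2 0 rP :=
    EL_cons (by simp) (EL_cons (by simp) (EL_cons (by simp) (EL_cons (by simp) (EL_nil _ _ _))))
  exact (((e1 2).mulP (e2.mulP h1)).mono (by omega) (by omega) (by omega)).append
    (((e1 (-1)).mulP (e3.mulP h0)).mono (by omega) (by omega) (by omega))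

theorem EL_phP (W H D : ℕ) (l : List (List ℕ)) (n a : ℕ) (q0 q1 : List Tm)
    (h0 : EL a a a q0) (h1 : EL (a + 1) (a + 1) (a + 1) q1) (hn : a + n ≤ D + 1) (hl : l.length ≤ n) :
    EL D D D (phP W H l n q0 q1) := by
  induction l generalizing n a q0 q1 with
  | nil => exact EL_nil _ _ _
  | cons cs l ih =>
    rw [List.length_cons] at hl
    refine EL.append ?_ (ih (n - 1) (a + 1) q1 _ h1 (EL_nxQ a q0 q1 h0 h1) (by omega) (by omega))
    have e := EL_uvP W H (n - 1) 0 0 0 (n - 1) 0 cs (sq mU n 0) (sq mV n 0)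
      (fun m hm => by
        obtain ⟨i, _, h2, rfl⟩ := mem_sq _ _ _ _ hm
        exact ⟨by simp only [mU]; omega, le_rfl, le_rfl⟩)
      (fun m hm => by
        obtain ⟨i, _, h2, rfl⟩ := mem_sq _ _ _ _ hm
        exact ⟨le_rfl, by simp only [mV]; omega, le_rfl⟩)
    exact (h0.mulP e).mono (by omega) (by omega) (by omega)

theorem EL_fP (W H D : ℕ) (l : List (List ℕ)) (n a : ℕ) (q : List Tm)
    (h0 : EL 0 0 (2 * a) q) (hn : a + n ≤ D + 1) (hl : l.length ≤ n) :
    EL 0 0 (2 * D) (fP W H l n q) := by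
  induction l generalizing n a q with
  | nil => exact EL_nil _ _ _
  | cons cs l ih =>
    rw [List.length_cons] at hl
    have e2 : EL 0 0 2 yP := EL_cons (by simp) (EL_cons (by simp) (EL_nil _ _ _))
    refine EL.append ?_ (ih (n - 1) (a + 1) _ ((e2.mulP h0).mono (by omega) (by omega) (by omega))
      (by omega) (by omega))
    have e := EL_uvP W H 0 0 (n - 1) 0 0 (n - 1) cs (sq mT n 0) (sq mT n 0)
      (fun m hm => by
        obtain ⟨i, _, h2, rfl⟩ := mem_sq _ _ _ _ hm
        exact ⟨le_rfl, le_rfl, by simp only [mT]; omega⟩)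
      (fun m hm => by
        obtain ⟨i, _, h2, rfl⟩ := mem_sq _ _ _ _ hm
        exact ⟨le_rfl, le_rfl, by simp only [mT]; omega⟩)
    exact (h0.mulP e).mono (by omega) (by omega) (by omega)

/-- exponents of a block -/
def okB (D T : ℕ) (b : Blk) : Bool :=
  (b.ms.all fun m => Nat.ble m.i b.a && Nat.ble m.j b.b && Nat.ble m.k b.c) &&
    b.m.all fun m => Nat.ble (m.i + 2 * b.a) D && Nat.ble (m.j + 2 * b.b) D && Nat.ble (m.k + 2 * b.c) T

theorem okB_EL (W H D T : ℕ) (b : Blk) (h : okB D T b = true) : EL D D T (b.P W H) := by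
  rw [okB, Bool.and_eq_true, List.all_eq_true, List.all_eq_true] at h
  obtain ⟨h1, h2⟩ := h
  have h1' : ∀ m ∈ b.ms, m.i ≤ b.a ∧ m.j ≤ b.b ∧ m.k ≤ b.c := fun m hm => by
    have := h1 m hm
    rw [Bool.and_eq_true, Bool.and_eq_true, Nat.ble_eq, Nat.ble_eq, Nat.ble_eq] at this
    exact ⟨this.1.1, this.1.2, this.2⟩
  have e := EL_uvP W H b.a b.b b.c b.a b.b b.c b.cs b.ms b.ms h1' h1'
  intro x hx
  obtain ⟨y, hy, hx⟩ := List.mem_flatMap.1 hx
  obtain ⟨z, hz, rfl⟩ := List.mem_map.1 hx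
  obtain ⟨f1, f2, f3⟩ := e z hz
  have := h2 y hy
  rw [Bool.and_eq_true, Bool.and_eq_true, Nat.ble_eq, Nat.ble_eq, Nat.ble_eq] at this
  simp only [Tm.mul]
  omega

/-- bound for the coefficients of a block -/
def nB (H : ℕ) (b : Blk) : ℕ := n1 b.m * (b.cs.length * (H * b.ms.length * (H * b.ms.length)))

/-- sum of the bounds -/
def nBs (H : ℕ) (l : List Blk) : ℕ := (l.map (nB H)).sum

theorem n1_blsP (W H : ℕ) (hW : W = 2 * H) (hH : 0 < H) (l : List Blk) : n1 (blsP W H l) ≤ nBs H l := by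
  induction l with
  | nil => simp [blsP, nBs]
  | cons b l ih =>
    have e2 : blsP W H (b :: l) = b.P W H ++ blsP W H l := rfl
    have e3 : nBs H (b :: l) = nB H b + nBs H l := by simp [nBs]
    rw [e2, e3, n1_append]
    refine add_le_add ?_ ih
    rw [Blk.P, n1_mulP, nB]
    exact Nat.mul_le_mul_left _ (n1_uvP W H hW hH _ _ _)

theorem EL_blsP (W H D T : ℕ) (l : List Blk) (h : l.all (okB D T) = true) : EL D D T (blsP W H l) := by
  rw [List.all_eq_true] at h
  intro x hx
  obtain ⟨b, hb, hx⟩ := List.mem_flatMap.1 hx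
  exact okB_EL W H D T b (h b hb) x hx

end

end Pool.Agent.Helper62.SDP
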