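import Pool.Agent.Helper62.SDP.Geo

/-!
# The three point sum
-/

namespace Pool.Agent.Helper62.SDP

open Finset

/-- pairwise distinct -/
def Dt (a b c : Fin 12) : Prop := a ≠ b ∧ a ≠ c ∧ b ≠ c

instance (a b c : Fin 12) : Decidable (Dt a b c) := by unfold Dt; infer_instance

theorem split3 (F : Fin 12 → Fin 12 → Fin 12 → ℝ) :
    ∑ a, ∑ b, ∑ c, F a b c = (∑ a, ∑ b, ∑ c, if Dt a b c then F a b c else 0) +
      (∑ a, ∑ c, if a = c then 0 else F a a c) + (∑ a, ∑ b, if a = b then 0 else F a b a) +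
      (∑ a, ∑ b, if a = b then 0 else F a b b) + ∑ a, F a a a := by
  have h : ∀ a b c, F a b c = (if Dt a b c then F a b c else 0) +
      (if a = b then (if a = c then 0 else F a a c) else 0) +
      (if a = c then (if a = b then 0 else F a b a) else 0) +
      (if b = c then (if a = b then 0 else F a b b) else 0) +
      (if a = b then (if a = c then F a a a else 0) else 0) := by
    intro a b c
    unfold Dt
    by_cases h1 : a = b
    · subst h1
      by_cases h2 : a = c
      · subst h2; simp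
      · simp [h2]
    · by_cases h2 : a = c
      · subst h2
        have h3 : ¬ b = a := fun h => h1 h.symm
        simp [h1, h3]
      · by_cases h3 : b = c
        · subst h3; simp [h1]
        · simp [h1, h2, h3]
  have e1 : ∀ a, ∑ b, ∑ c, (if a = b then (if a = c then 0 else F a a c) else 0) =
      ∑ c, if a = c then 0 else F a a c := fun a => by
    rw [Finset.sum_comm]
    refine Finset.sum_congr rfl fun c _ => ?_
    rw [Finset.sum_ite_eq]
    simp
  have e2 : ∀ a, ∑ b, ∑ c, (if a = c then (if a = b then 0 else F a b a) else 0) =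
      ∑ b, if a = b then 0 else F a b a := fun a => by
    refine Finset.sum_congr rfl fun c _ => ?_
    rw [Finset.sum_ite_eq]
    simp
  have e3 : ∀ a, ∑ b, ∑ c, (if b = c then (if a = b then 0 else F a b b) else 0) =
      ∑ b, if a = b then 0 else F a b b := fun a => by
    refine Finset.sum_congr rfl fun c _ => ?_
    rw [Finset.sum_ite_eq]
    simp
  have e4 : ∀ a, ∑ b, ∑ c, (if a = b then (if a = c then F a a a else 0) else 0) = F a a a := fun a => by
    rw [Finset.sum_comm]
    simp
  have e0 : ∀ a, ∑ b, ∑ c, F a b c = (∑ b, ∑ c, if Dt a b c then F a b c else 0) +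
      (∑ c, if a = c then 0 else F a a c) + (∑ b, if a = b then 0 else F a b a) +
      (∑ b, if a = b then 0 else F a b b) + F a a a := fun a => by
    rw [← e1, ← e2, ← e3, ← e4 a, ← Finset.sum_add_distrib, ← Finset.sum_add_distrib,
      ← Finset.sum_add_distrib, ← Finset.sum_add_distrib]
    refine Finset.sum_congr rfl fun b _ => ?_
    rw [← Finset.sum_add_distrib, ← Finset.sum_add_distrib,
      ← Finset.sum_add_distrib, ← Finset.sum_add_distrib]
    exact Finset.sum_congr rfl fun c _ => h a b c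
  rw [Finset.sum_congr rfl fun a _ => e0 a, Finset.sum_add_distrib, Finset.sum_add_distrib,
    Finset.sum_add_distrib, Finset.sum_add_distrib]

theorem ten (g : Fin 12 → Fin 12 → ℝ) :
    ∑ a, ∑ b, ∑ c, (if Dt a b c then g a b else 0) = 10 * ∑ a, ∑ b, if a = b then 0 else g a b := by
  rw [Finset.mul_sum]
  refine Finset.sum_congr rfl fun a _ => ?_
  rw [Finset.mul_sum]
  refine Finset.sum_congr rfl fun b _ => ?_
  by_cases h : a = b
  · subst h
    simp [Dt]
  · rw [if_neg h, ← Finset.sum_filter, Finset.sum_const, nsmul_eq_mul]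
    congr 1
    have e : (univ.filter fun c => Dt a b c).card = 10 := by
      revert a b
      decide +kernel
    rw [e]
    norm_num

/-- the moments -/
noncomputable def EE (s : Fin 12 → Fin 12 → ℝ) (i j k : ℕ) : ℝ :=
  ∑ a, ∑ b, ∑ c, if Dt a b c then dl (s a c) (s b c) (s a b) i j k else 0

theorem S_EE (s : Fin 12 → Fin 12 → ℝ) (p : List Tm) :
    S (EE s) p = ∑ a, ∑ b, ∑ c, if Dt a b c then S (dl (s a c) (s b c) (s a b)) p else 0 := by
  induction p with
  | nil => simp
  | cons x p ih =>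
    rw [S_cons, ih, EE, Finset.mul_sum, ← Finset.sum_add_distrib]
    refine Finset.sum_congr rfl fun a _ => ?_
    rw [Finset.mul_sum, ← Finset.sum_add_distrib]
    refine Finset.sum_congr rfl fun b _ => ?_
    rw [Finset.mul_sum, ← Finset.sum_add_distrib]
    refine Finset.sum_congr rfl fun c _ => ?_
    split_ifs
    · rw [S_cons]
    · simp

theorem comm13 (f : Fin 12 → Fin 12 → Fin 12 → ℝ) :
    ∑ a, ∑ b, ∑ c, f a b c = ∑ c, ∑ b, ∑ a, f a b c := by
  have e1 : ∑ a, ∑ b, ∑ c, f a b c = ∑ a, ∑ c, ∑ b, f a b c :=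
    Finset.sum_congr rfl fun a _ => Finset.sum_comm
  have e2 : ∑ a, ∑ c, ∑ b, f a b c = ∑ c, ∑ a, ∑ b, f a b c := Finset.sum_comm
  have e3 : ∑ c, ∑ a, ∑ b, f a b c = ∑ c, ∑ b, ∑ a, f a b c :=
    Finset.sum_congr rfl fun c _ => Finset.sum_comm
  rw [e1, e2, e3]

theorem EE_sym (s : Fin 12 → Fin 12 → ℝ) (hs : ∀ a b, s a b = s b a) : Sy (EE s) := by
  constructor
  · intro i j k
    unfold EE
    rw [Finset.sum_comm]
    refine Finset.sum_congr rfl fun a _ => Finset.sum_congr rfl fun b _ =>
      Finset.sum_congr rfl fun c _ => ?_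
    have e : Dt b a c ↔ Dt a b c := by unfold Dt; tauto
    rw [hs b a]
    by_cases h : Dt a b c
    · rw [if_pos h, if_pos (e.2 h)]
      unfold dl
      ring
    · rw [if_neg h, if_neg (fun h' => h (e.1 h'))]
  · intro i j k
    unfold EE
    rw [comm13]
    refine Finset.sum_congr rfl fun a _ => Finset.sum_congr rfl fun b _ =>
      Finset.sum_congr rfl fun c _ => ?_
    have e : Dt c b a ↔ Dt a b c := by unfold Dt; tauto
    rw [hs c a, hs b a, hs c b]
    by_cases h : Dt a b c
    · rw [if_pos h, if_pos (e.2 h)]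
      unfold dl
      ring
    · rw [if_neg h, if_neg (fun h' => h (e.1 h'))]

theorem card_Dt : ∑ a : Fin 12, ∑ b : Fin 12, ∑ c : Fin 12, (if Dt a b c then (1 : ℝ) else 0) = 1320 := by
  have h : ∑ a : Fin 12, ∑ b : Fin 12, ∑ c : Fin 12, (if Dt a b c then (1 : ℕ) else 0) = 1320 := by
    decide +kernel
  exact_mod_cast h

theorem EE_zero (s : Fin 12 → Fin 12 → ℝ) : EE s 0 0 0 = 1320 := by
  unfold EE dl
  simp only [pow_zero, mul_one]
  exact card_Dt

theorem EE_le (s : Fin 12 → Fin 12 → ℝ) (hs : ∀ a b, |s a b| ≤ 1) (i j k : ℕ) : |EE s i j k| ≤ 1320 := by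
  rw [← card_Dt]
  unfold EE
  refine (Finset.abs_sum_le_sum_abs _ _).trans (Finset.sum_le_sum fun a _ =>
    (Finset.abs_sum_le_sum_abs _ _).trans (Finset.sum_le_sum fun b _ =>
    (Finset.abs_sum_le_sum_abs _ _).trans (Finset.sum_le_sum fun c _ => ?_)))
  split_ifs
  · unfold dl
    rw [abs_mul, abs_mul, abs_pow, abs_pow, abs_pow]
    have h1 : |s a c| ^ i ≤ 1 := pow_le_one₀ (abs_nonneg _) (hs _ _)
    have h2 : |s b c| ^ j ≤ 1 := pow_le_one₀ (abs_nonneg _) (hs _ _)
    have h3 : |s a b| ^ k ≤ 1 := pow_le_one₀ (abs_nonneg _) (hs _ _)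
    exact mul_le_one₀ (mul_le_one₀ h1 (by positivity) h2) (by positivity) h3
  · simp

theorem p111_eq (W H n : ℕ) (F0 : List ℕ) : (p111 W H n F0 : ℝ) = ss W H F0 n 0 1 1 := by
  have h : (p111 W H n F0 : ℤ) = S (kap 1 1) (uvP W H F0 (sq m0 n 0) (sq m0 n 0)) := by
    unfold p111
    rw [fL_eq, fN_eq]
    exact sqV_eq 1 1 W H F0 (sq m0 n 0) _ rfl
  have e : ∀ p : List Tm, ((S (kap 1 1) p : ℤ) : ℝ) = S (fun _ _ _ => (1 : ℝ)) p := fun p => by
    induction p with
    | nil => simp
    | cons x p ih =>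
      rw [S_cons, S_cons, Int.cast_add, ih]
      simp [kap]
  have h2 : ((p111 W H n F0 : ℤ) : ℝ) = ss W H F0 n 0 1 1 := by
    rw [h, e]
    exact S_uvP_sq W H (fun _ _ _ => (1 : ℝ)) (fun _ _ _ _ _ _ => by ring) m0 m0 1 1
      (fun i => by simp) (fun i => by simp) F0 n 0
  rwa [Int.cast_natCast] at h2

/-- the main inequality -/
theorem main_ineq (W H n : ℕ) (F0 : List ℕ) (FR : List (List ℕ)) (bl : List Blk)
    (x : Fin 12 → EuclideanSpace ℝ (Fin 3)) (hx : ∀ i, ‖x i‖ = 1)
    (hb : ∀ b ∈ bl, ∀ a b' c, Dt a b' c →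
      0 ≤ S (dl (inner ℝ (x a) (x c)) (inner ℝ (x b') (x c)) (inner ℝ (x a) (x b'))) b.m) :
    0 ≤ 120 * (p111 W H n F0 : ℝ) +
      S (EE fun a b => inner ℝ (x a) (x b)) (totP W H n F0 (F0 :: FR) bl) := by
  set s : Fin 12 → Fin 12 → ℝ := fun a b => inner ℝ (x a) (x b) with hs
  have hs1 : ∀ a, s a a = 1 := fun a => by
    rw [hs]
    show inner ℝ (x a) (x a) = (1 : ℝ)
    rw [real_inner_self_eq_norm_sq, hx]
    norm_num
  have hsc : ∀ a b, s a b = s b a := fun a b => real_inner_comm _ _
  set P := phP W H (F0 :: FR) n oP xP with hP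
  -- positivity of the whole sum
  have hpos : 0 ≤ ∑ a, ∑ b, ∑ c, S (dl (s a c) (s b c) (s a b)) P := by
    have e : ∑ a, ∑ b, ∑ c, S (dl (s a c) (s b c) (s a b)) P =
        ∑ c, ∑ a, ∑ b, S (dl (s a c) (s b c) (s a b)) P := by
      have e1 : ∑ a, ∑ b, ∑ c, S (dl (s a c) (s b c) (s a b)) P =
          ∑ a, ∑ c, ∑ b, S (dl (s a c) (s b c) (s a b)) P :=
        Finset.sum_congr rfl fun a _ => Finset.sum_comm
      rw [e1, Finset.sum_comm]
    rw [e]
    refine Finset.sum_nonneg fun c _ => ?_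
    obtain ⟨w, hw⟩ := exists_w x hx c
    have hw2 : ∀ a, Complex.normSq (w a) = 1 - s a c ^ 2 := fun a => by
      have := hw a a
      rw [Complex.mul_conj, Complex.ofReal_re] at this
      rw [this]
      show inner ℝ (x a) (x a) - s a c * s a c = _
      rw [show inner ℝ (x a) (x a) = s a a from rfl, hs1]
      ring
    refine psd_ph W H w (fun a => s a c) s hw hw2 _ n 0 oP xP (fun a b => ?_) fun a b => ?_
    · have := dl_c (s a c) (s b c) (s a b) 1
      rw [Int.cast_one] at this
      rw [pow_zero, Complex.one_re]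
      exact this
    · rw [dl_x, zero_add, pow_one]
      exact (hw a b).symm
  rw [split3] at hpos
  -- the four degenerate sums
  have e1 : ∀ a c, S (dl (s a c) (s a c) (s a a)) P = S (dl 0 0 (s a c)) (fP W H (F0 :: FR) n oP) :=
    fun a c => by
      rw [hs1]
      refine S_phP_diag W H 0 0 (s a c) _ n oP xP oP ?_ ?_
      · have := dl_c (s a c) (s a c) 1 1
        have h2 := dl_c 0 0 (s a c) 1
        exact this.trans h2.symm
      · have h2 : S (dl 0 0 (s a c)) oP = 1 := by
          have := dl_c 0 0 (s a c) 1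
          rw [Int.cast_one] at this
          exact this
        rw [dl_x, h2]
        ring
  have e2 : ∀ a b, S (dl (s a a) (s b a) (s a b)) P = ss W H F0 n 0 1 (s a b) := fun a b => by
    rw [hs1, hsc b a]
    exact S_phP_first W H 1 (s a b) (s a b) (by ring) (by ring) F0 FR n
  have e3 : ∀ a b, S (dl (s a b) (s b b) (s a b)) P = ss W H F0 n 0 1 (s a b) := fun a b => by
    rw [hs1, ss_comm]
    exact S_phP_first W H (s a b) 1 (s a b) (by ring) (by ring) F0 FR n
  have e4 : ∀ a, S (dl (s a a) (s a a) (s a a)) P = p111 W H n F0 := fun a => by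
    rw [hs1, p111_eq]
    exact S_phP_first W H 1 1 1 (by ring) (by ring) F0 FR n
  simp only [e4] at hpos
  simp only [e1, e2, e3] at hpos
  rw [Finset.sum_const, Finset.card_univ, Fintype.card_fin, nsmul_eq_mul] at hpos
  -- the value of the moments
  have hE : S (EE s) (totP W H n F0 (F0 :: FR) bl) =
      10 * (∑ a, ∑ b, ∑ c, if Dt a b c then S (dl (s a c) (s b c) (s a b)) P else 0) +
      (∑ a, ∑ b, ∑ c, if Dt a b c then S (dl 0 0 (s a b)) (fP W H (F0 :: FR) n oP) else 0) +
      2 * (∑ a, ∑ b, ∑ c, if Dt a b c then ss W H F0 n 0 1 (s a b) else 0) +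
      ∑ a, ∑ b, ∑ c, if Dt a b c then S (dl (s a c) (s b c) (s a b)) (blsP W H bl) else 0 := by
    rw [S_EE, Finset.mul_sum, Finset.mul_sum, ← Finset.sum_add_distrib, ← Finset.sum_add_distrib,
      ← Finset.sum_add_distrib]
    refine Finset.sum_congr rfl fun a _ => ?_
    rw [Finset.mul_sum, Finset.mul_sum, ← Finset.sum_add_distrib, ← Finset.sum_add_distrib,
      ← Finset.sum_add_distrib]
    refine Finset.sum_congr rfl fun b _ => ?_
    rw [Finset.mul_sum, Finset.mul_sum, ← Finset.sum_add_distrib, ← Finset.sum_add_distrib,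
      ← Finset.sum_add_distrib]
    refine Finset.sum_congr rfl fun c _ => ?_
    split_ifs
    · have f1 : ∀ (u v : ℝ) (t : ℝ), S (dl u v t) (fP W H (F0 :: FR) n oP) =
          S (dl 0 0 t) (fP W H (F0 :: FR) n oP) := fun u v t => by
        rw [← S_phP_diag W H u v t (F0 :: FR) n oP xP oP ((dl_c _ _ _ 1).trans (dl_c _ _ _ 1).symm),
          ← S_phP_diag W H 0 0 t (F0 :: FR) n oP xP oP ((dl_c _ _ _ 1).trans (dl_c _ _ _ 1).symm)]
        · have h2 : S (dl 0 0 t) oP = 1 := by
            have := dl_c 0 0 t 1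
            rw [Int.cast_one] at this
            exact this
          rw [dl_x, h2]
          ring
        · have h2 : S (dl u v t) oP = 1 := by
            have := dl_c u v t 1
            rw [Int.cast_one] at this
            exact this
          rw [dl_x, h2]
          ring
      rw [totP, S_append, S_append, S_append, S_mulP (dl_mul _ _ _), S_mulP (dl_mul _ _ _), dl_c, dl_c,
        f1 (s a c) (s b c) (s a b), S_uvP_sq W H _ (dl_mul _ _ _) m0 mT 1 (s a b)
          (fun i => by simp [m0, dl]) (fun i => by simp [mT, dl])]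
      push_cast
      ring
    · ring
  have hbl : 0 ≤ ∑ a, ∑ b, ∑ c, if Dt a b c then S (dl (s a c) (s b c) (s a b)) (blsP W H bl) else 0 := by
    refine Finset.sum_nonneg fun a _ => Finset.sum_nonneg fun b _ => Finset.sum_nonneg fun c _ => ?_
    split_ifs with hD
    · have hb' : ∀ q ∈ bl, 0 ≤ S (dl (s a c) (s b c) (s a b)) q.m := fun q hq => hb q hq a b c hD
      clear hb hE
      induction bl with
      | nil => exact le_rfl
      | cons q l ih =>
        have e : blsP W H (q :: l) = q.P W H ++ blsP W H l := rfl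
        rw [e, S_append, Blk.P, S_mulP (dl_mul _ _ _)]
        exact add_nonneg (mul_nonneg (hb' q (by simp)) (S_uvP_nonneg W H _ (dl_mul _ _ _) _ _))
          (ih fun q hq => hb' q (List.mem_cons_of_mem _ hq))
    · exact le_rfl
  rw [ten, ten] at hE
  rw [hE]
  push_cast at hpos
  have h10 := mul_nonneg (by norm_num : (0 : ℝ) ≤ 10) hpos
  linarith

end Pool.Agent.Helper62.SDP
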