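import Mathlib

/-!
# Integer polynomials in three variables as lists of terms; recovery from one integer value

`S δ p = ∑ c δ(i,j,k)` over the terms `c u^i v^j t^k` of `p`. `key D (i,j,k) = i + D j + D^2 k`.
If the exponents of `p` are smaller than `D, D, T` and the sum of the absolute values of the coefficients
is smaller than `B/2`, then the coefficients of `p` are determined by the value `S (B^key) p`.
-/

namespace Pool.Agent.Helper62.SDP

/-- a term -/
structure Tm where
  c : ℤ
  i : ℕ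
  j : ℕ
  k : ℕ

/-- value of a list of terms -/
def S {α : Type*} [CommRing α] (δ : ℕ → ℕ → ℕ → α) (p : List Tm) : α :=
  (p.map fun a => (a.c : α) * δ a.i a.j a.k).sum

section
variable {α : Type*} [CommRing α] {δ : ℕ → ℕ → ℕ → α}

@[simp] theorem S_nil : S δ [] = 0 := rfl

@[simp] theorem S_cons (a : Tm) (p : List Tm) : S δ (a :: p) = (a.c : α) * δ a.i a.j a.k + S δ p := by
  simp [S]

@[simp] theorem S_append (p q : List Tm) : S δ (p ++ q) = S δ p + S δ q := by
  simp [S]

/-- multiplicative valuation -/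
def Mul3 (δ : ℕ → ℕ → ℕ → α) : Prop :=
  ∀ i j k i' j' k', δ (i + i') (j + j') (k + k') = δ i j k * δ i' j' k'

/-- product of terms -/
def Tm.mul (a b : Tm) : Tm := ⟨a.c * b.c, a.i + b.i, a.j + b.j, a.k + b.k⟩

/-- product of lists of terms -/
def mulP (p q : List Tm) : List Tm := p.flatMap fun a => q.map fun b => a.mul b

theorem mulP_cons (a : Tm) (p q : List Tm) : mulP (a :: p) q = (q.map fun b => a.mul b) ++ mulP p q := rfl

theorem S_map_mul (h : Mul3 δ) (a : Tm) (q : List Tm) :
    S δ (q.map fun b => a.mul b) = (a.c : α) * δ a.i a.j a.k * S δ q := by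
  induction q with
  | nil => simp
  | cons b q ih =>
    rw [List.map_cons, S_cons, ih, S_cons, Tm.mul, h]
    push_cast
    ring

@[simp] theorem S_mulP (h : Mul3 δ) (p q : List Tm) : S δ (mulP p q) = S δ p * S δ q := by
  induction p with
  | nil => simp [mulP]
  | cons a p ih =>
    rw [mulP_cons, S_append, S_map_mul h, ih, S_cons]
    ring

end

/-- sum of the absolute values of the coefficients -/
def n1 (p : List Tm) : ℕ := (p.map fun a => a.c.natAbs).sum

@[simp] theorem n1_nil : n1 [] = 0 := rfl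

@[simp] theorem n1_cons (a : Tm) (p : List Tm) : n1 (a :: p) = a.c.natAbs + n1 p := by simp [n1]

@[simp] theorem n1_append (p q : List Tm) : n1 (p ++ q) = n1 p + n1 q := by simp [n1]

theorem n1_map_mul (a : Tm) (q : List Tm) : n1 (q.map fun b => a.mul b) = a.c.natAbs * n1 q := by
  induction q with
  | nil => simp
  | cons b q ih =>
    rw [List.map_cons, n1_cons, ih, n1_cons, Tm.mul, Int.natAbs_mul]
    ring

@[simp] theorem n1_mulP (p q : List Tm) : n1 (mulP p q) = n1 p * n1 q := by
  induction p with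
  | nil => simp [mulP]
  | cons a p ih =>
    rw [mulP_cons, n1_append, n1_map_mul, ih, n1_cons]
    ring

/-- bounds for the exponents -/
def EL (a b c : ℕ) (p : List Tm) : Prop := ∀ x ∈ p, x.i ≤ a ∧ x.j ≤ b ∧ x.k ≤ c

theorem EL_nil (a b c : ℕ) : EL a b c [] := fun x hx => by simp at hx

theorem EL_cons {a b c : ℕ} {x : Tm} {p : List Tm} (h : x.i ≤ a ∧ x.j ≤ b ∧ x.k ≤ c) (h' : EL a b c p) :
    EL a b c (x :: p) := fun y hy => by
  rcases List.mem_cons.1 hy with rfl | hy
  · exact h
  · exact h' y hy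

theorem EL.append {a b c : ℕ} {p q : List Tm} (h : EL a b c p) (h' : EL a b c q) :
    EL a b c (p ++ q) := fun x hx => by
  rcases List.mem_append.1 hx with hx | hx
  · exact h x hx
  · exact h' x hx

theorem EL.mono {a b c a' b' c' : ℕ} {p : List Tm} (h : EL a b c p) (h1 : a ≤ a') (h2 : b ≤ b')
    (h3 : c ≤ c') : EL a' b' c' p := fun x hx => by
  obtain ⟨e1, e2, e3⟩ := h x hx
  exact ⟨e1.trans h1, e2.trans h2, e3.trans h3⟩

theorem EL.mulP {a b c a' b' c' : ℕ} {p q : List Tm} (h : EL a b c p) (h' : EL a' b' c' q) :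
    EL (a + a') (b + b') (c + c') (mulP p q) := fun x hx => by
  obtain ⟨y, hy, hx⟩ := List.mem_flatMap.1 hx
  obtain ⟨z, hz, rfl⟩ := List.mem_map.1 hx
  obtain ⟨e1, e2, e3⟩ := h y hy
  obtain ⟨f1, f2, f3⟩ := h' z hz
  exact ⟨Nat.add_le_add e1 f1, Nat.add_le_add e2 f2, Nat.add_le_add e3 f3⟩

/-- the Kronecker exponent -/
def key (D i j k : ℕ) : ℕ := i + D * (j + D * k)

/-- the coefficient of the Kronecker exponent `n` -/
def cf (D : ℕ) (p : List Tm) (n : ℕ) : ℤ :=
  (p.map fun a => if key D a.i a.j a.k = n then a.c else 0).sum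

@[simp] theorem cf_nil (D n : ℕ) : cf D [] n = 0 := rfl

@[simp] theorem cf_cons (D : ℕ) (a : Tm) (p : List Tm) (n : ℕ) :
    cf D (a :: p) n = (if key D a.i a.j a.k = n then a.c else 0) + cf D p n := by simp [cf]

theorem abs_cf (D : ℕ) (p : List Tm) (n : ℕ) : |cf D p n| ≤ n1 p := by
  induction p with
  | nil => simp
  | cons a p ih =>
    rw [cf_cons, n1_cons]
    push_cast
    refine (abs_add_le _ _).trans (add_le_add ?_ ih)
    split_ifs
    · exact le_rfl
    · simp

theorem key_lt {D T i j k : ℕ} (h : i < D ∧ j < D ∧ k < T) : key D i j k < D * (D * T) := by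
  unfold key
  obtain ⟨h1, h2, h3⟩ := h
  have e1 : j + D * k < D * T := calc
    j + D * k < D + D * k := by omega
    _ = D * (k + 1) := by ring
    _ ≤ D * T := Nat.mul_le_mul_left _ h3
  calc i + D * (j + D * k) < D + D * (j + D * k) := by omega
    _ = D * (j + D * k + 1) := by ring
    _ ≤ D * (D * T) := Nat.mul_le_mul_left _ e1

theorem key_mod {D i j : ℕ} (k : ℕ) (h1 : i < D) (h2 : j < D) :
    key D i j k % D = i ∧ key D i j k / D % D = j ∧ key D i j k / D / D = k := by
  unfold key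
  have hD : 0 < D := by omega
  have e1 : (i + D * (j + D * k)) / D = j + D * k := by
    rw [Nat.add_mul_div_left _ _ hD, Nat.div_eq_of_lt h1, zero_add]
  have e2 : (j + D * k) / D = k := by
    rw [Nat.add_mul_div_left _ _ hD, Nat.div_eq_of_lt h2, zero_add]
  refine ⟨?_, ?_, ?_⟩
  · rw [Nat.add_mul_mod_self_left, Nat.mod_eq_of_lt h1]
  · rw [e1, Nat.add_mul_mod_self_left, Nat.mod_eq_of_lt h2]
  · rw [e1, e2]

/-- value in terms of the coefficients -/
theorem S_eq_cf {α : Type*} [CommRing α] (δ : ℕ → ℕ → ℕ → α) (D T N : ℕ) (hN : N = D * (D * T))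
    (p : List Tm) (h : ∀ x ∈ p, x.i < D ∧ x.j < D ∧ x.k < T) :
    S δ p = ∑ n ∈ Finset.range N, (cf D p n : α) * δ (n % D) (n / D % D) (n / D / D) := by
  induction p with
  | nil => rw [S_nil]; exact (Finset.sum_eq_zero fun n _ => by rw [cf_nil, Int.cast_zero, zero_mul]).symm
  | cons a p ih =>
    have h1 := h a (by simp)
    have h2 : ∀ x ∈ p, x.i < D ∧ x.j < D ∧ x.k < T := fun x hx => h x (List.mem_cons_of_mem _ hx)
    rw [S_cons, ih h2]
    have e0 : ∀ n, (cf D (a :: p) n : α) * δ (n % D) (n / D % D) (n / D / D) =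
        ((if key D a.i a.j a.k = n then a.c else 0 : ℤ) : α) * δ (n % D) (n / D % D) (n / D / D) +
          (cf D p n : α) * δ (n % D) (n / D % D) (n / D / D) := fun n => by
      rw [cf_cons, Int.cast_add, add_mul]
    rw [Finset.sum_congr rfl fun n _ => e0 n, Finset.sum_add_distrib]
    congr 1
    rw [Finset.sum_eq_single (key D a.i a.j a.k)]
    · obtain ⟨e1, e2, e3⟩ := key_mod a.k h1.1 h1.2.1
      rw [if_pos rfl, e1, e2, e3]
    · intro n _ hn
      rw [if_neg (Ne.symm hn), Int.cast_zero, zero_mul]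
    · intro hn
      exact absurd (Finset.mem_range.2 (hN ▸ key_lt h1)) hn

/-- digits of a number with balanced digits -/
theorem digit_unique (B H : ℕ) (hB : B = 2 * H) (c : ℕ → ℤ) (hc : ∀ n, |c n| < H) :
    ∀ (N : ℕ) (V : ℕ), (V : ℤ) = ∑ n ∈ Finset.range N, (c n + H) * (B : ℤ) ^ n →
      ∀ n < N, ((V / B ^ n % B : ℕ) : ℤ) = c n + H := by
  have h0 : ∀ n, 0 ≤ c n + H ∧ c n + H < B := fun n => by
    have := abs_lt.1 (hc n)
    rw [hB]
    push_cast
    constructor <;> linarith
  -- shift the coefficients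
  have key : ∀ (N : ℕ) (c : ℕ → ℤ), (∀ n, 0 ≤ c n ∧ c n < B) → ∀ V : ℕ,
      (V : ℤ) = ∑ n ∈ Finset.range N, c n * (B : ℤ) ^ n → ∀ n < N, ((V / B ^ n % B : ℕ) : ℤ) = c n := by
    intro N
    induction N with
    | zero => intro c _ V _ n hn; omega
    | succ N ih =>
      intro c hc V hV n hn
      rw [Finset.sum_range_succ'] at hV
      have e1 : ∑ k ∈ Finset.range N, c (k + 1) * (B : ℤ) ^ (k + 1) =
          (B : ℤ) * ∑ k ∈ Finset.range N, c (k + 1) * (B : ℤ) ^ k := by
        rw [Finset.mul_sum]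
        exact Finset.sum_congr rfl fun k _ => by ring
      rw [e1, pow_zero, mul_one] at hV
      have hBp : (0 : ℤ) < B := lt_of_le_of_lt (hc 0).1 (hc 0).2
      have e2 : (V : ℤ) % B = c 0 := by
        rw [hV, add_comm, Int.add_mul_emod_self_left]
        exact Int.emod_eq_of_lt (hc 0).1 (hc 0).2
      have e3 : (V : ℤ) / B = ∑ k ∈ Finset.range N, c (k + 1) * (B : ℤ) ^ k := by
        rw [hV, add_comm, Int.add_mul_ediv_left _ _ hBp.ne', Int.ediv_eq_zero_of_lt (hc 0).1 (hc 0).2,
          zero_add]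
      rcases n with _ | n
      · rw [pow_zero, Nat.div_one]
        push_cast
        exact e2
      · have := ih (fun k => c (k + 1)) (fun k => hc _) (V / B) (by push_cast; exact e3) n (by omega)
        rw [pow_succ', ← Nat.div_div_eq_div_mul]
        exact this
  exact fun N V hV => key N _ h0 V hV

end Pool.Agent.Helper62.SDP
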