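import Pool.Agent.Helper62.SDP.Ker

/-!
# The check and its soundness
-/

namespace Pool.Agent.Helper62.SDP

universe w

noncomputable section

/-- the whole polynomial -/
def totP (W H n : ℕ) (F0 : List ℕ) (FC : List (List ℕ)) (bl : List Blk) : List Tm :=
  mulP (cP 10) (phP W H FC n oP xP) ++ (fP W H FC n oP ++
    (mulP (cP 2) (uvP W H F0 (sq m0 n 0) (sq mT n 0)) ++ blsP W H bl))

/-- its value -/
def totV (B D W H n : ℕ) (F0 : List ℕ) (FC : List (List ℕ)) (bl : List Blk) : Int :=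
  fI (tmV B D xP) fun x => fI (tmV B D rP) fun r => fI (tmV B D yP) fun y =>
  fI (phV B D W H x r FC n (Int.ofNat 1) x) fun v1 => 
  fI (fV B D W H y FC n (Int.ofNat 1)) fun v2 =>
  fL (pws B D (sq m0 n 0)) fun ps => fL (pws B D (sq mT n 0)) fun qs =>
  fN (Nat.mul H (gs ps)) fun g => fN (Nat.mul H (gs qs)) fun h =>
  fI (uvV W H F0 ps qs g h) fun v3 =>
  fI (blsV B D W H bl) fun v4 =>
  iadd (imul (Int.ofNat 10) v1) (iadd v2 (iadd (imul (Int.ofNat 2) v3) v4))

theorem S_cP (B D : ℕ) (c : ℤ) : S (kap B D) (cP c) = c := by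
  simp [cP, kap, key]

theorem totV_eq (B D W H n : ℕ) (F0 : List ℕ) (FC : List (List ℕ)) (bl : List Blk) :
    totV B D W H n F0 FC bl = S (kap B D) (totP W H n F0 FC bl) := by
  unfold totV
  simp only [fI_eq, fL_eq, fN_eq]
  rw [iadd_eq, iadd_eq, iadd_eq, imul_eq, imul_eq]
  have e1 : (Int.ofNat 1 : ℤ) = S (kap B D) oP := (S_cP B D 1).symm
  rw [phV_eq B D W H _ _ (tmV_eq B D xP) (tmV_eq B D rP) FC n _ _ oP xP e1 (tmV_eq B D xP),
    fV_eq B D W H _ (tmV_eq B D yP) FC n _ oP e1, uvV_eq B D W H F0 (sq m0 n 0) (sq mT n 0)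
      (Nat.mul H (gs (pws B D (sq m0 n 0)))) (Nat.mul H (gs (pws B D (sq mT n 0)))) rfl rfl,
    blsV_eq, totP, S_append, S_append, S_append, S_mulP (kap_mul B D), S_mulP (kap_mul B D), S_cP, S_cP]
  rfl

/-- bound for the coefficients -/
def nT (H n : ℕ) (FC : List (List ℕ)) (bl : List Blk) : ℕ :=
  10 * nph (n * (H * n * (H * n))) FC.length 1 2 + (nf (n * (H * n * (H * n))) FC.length 1 +
    (2 * (n * (H * n * (H * n))) + nBs H bl))

theorem n1_totP (W H n : ℕ) (hW : W = 2 * H) (hH : 0 < H) (F0 : List ℕ) (FC : List (List ℕ))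
    (bl : List Blk) (h0 : F0.length ≤ n) (hl : ∀ cs ∈ FC, cs.length ≤ n) :
    n1 (totP W H n F0 FC bl) ≤ nT H n FC bl := by
  have e1 : n1 (cP 10) = 10 := rfl
  have e2 : n1 (cP 2) = 2 := rfl
  rw [totP, n1_append, n1_append, n1_append, n1_mulP, n1_mulP, e1, e2, nT]
  refine add_le_add (Nat.mul_le_mul_left _ (n1_phP W H n hW hH FC n oP xP le_rfl hl))
    (add_le_add (n1_fP W H n hW hH FC n oP le_rfl hl) (add_le_add (Nat.mul_le_mul_left _ ?_)
      (n1_blsP W H hW hH bl)))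
  refine (n1_uvP W H hW hH _ _ _).trans ?_
  rw [sq_length, sq_length]
  exact Nat.mul_le_mul_right _ h0

theorem EL_totP (W H d : ℕ) (F0 : List ℕ) (FC : List (List ℕ)) (bl : List Blk)
    (hl : FC.length ≤ d + 1) (hb : bl.all (okB d (2 * d)) = true) :
    EL d d (2 * d) (totP W H (d + 1) F0 FC bl) := by
  have e1 : ∀ c, EL 0 0 0 (cP c) := fun c => EL_cons ⟨le_rfl, le_rfl, le_rfl⟩ (EL_nil _ _ _)
  have e2 : EL 1 1 1 xP := EL_cons (by simp) (EL_cons (by simp) (EL_nil _ _ _))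
  have e := EL_uvP W H 0 0 0 0 0 d F0 (sq m0 (d + 1) 0) (sq mT (d + 1) 0)
    (fun m hm => by
      obtain ⟨i, _, h2, rfl⟩ := mem_sq _ _ _ _ hm
      exact ⟨le_rfl, le_rfl, le_rfl⟩)
    (fun m hm => by
      obtain ⟨i, _, h2, rfl⟩ := mem_sq _ _ _ _ hm
      exact ⟨le_rfl, le_rfl, by simp only [mT]; omega⟩)
  exact EL.append (((e1 10).mulP (EL_phP W H d FC (d + 1) 0 oP xP (e1 1) e2 (by omega) hl)).mono
    (by omega) (by omega) (by omega)) (EL.append ((EL_fP W H d FC (d + 1) 0 oP (e1 1) (by omega) hl).mono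
    (by omega) (by omega) (by omega)) (EL.append (((e1 2).mulP e).mono (by omega) (by omega) (by omega))
      (EL_blsP W H d (2 * d) bl hb)))

/-- nonnegative part -/
def toN (x : Int) : ℕ := Int.rec (motive := fun _ => ℕ) (fun n => n) (fun _ => 0) x

theorem toN_eq (x : ℤ) (h : 0 ≤ x) : (toN x : ℤ) = x := by
  rcases x with x | x
  · rfl
  · exact absurd h (by rw [Int.negSucc_eq]; omega)

/-- value with shifted digits -/
def V0 (B Hb D N W H n : ℕ) (F0 : List ℕ) (FC : List (List ℕ)) (bl : List Blk) : ℕ :=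
  fI (totV B D W H n F0 FC bl) fun V =>
    fN (Nat.mul Hb (Nat.div (Nat.sub (Nat.pow B N) 1) (Nat.sub B 1))) fun off =>
      toN (iadd V (Int.ofNat off))

/-- final comparison -/
def fin (p c : ℕ) (c0 : Int) : Bool :=
  Int.rec (motive := fun _ => Bool) (fun _ => false)
    (fun m => Nat.ble (Nat.succ (Nat.add (Nat.mul 120 p) (Nat.mul 1320 c))) (Nat.mul 1320 (Nat.succ m))) c0

theorem fin_eq (p c : ℕ) (c0 : ℤ) (h : fin p c c0 = true) : 120 * (p : ℤ) + 1320 * c0 + 1320 * c < 0 := by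
  rcases c0 with m | m
  · exact absurd h (by show ¬ (false = true); simp)
  · have h' : (120 * p + 1320 * c + 1).ble (1320 * (m + 1)) = true := h
    rw [Nat.ble_eq] at h'
    rw [Int.negSucc_eq]
    omega

/-- `∑_r ℓ_r(1)^2` -/
def p111 (W H n : ℕ) (F0 : List ℕ) : ℕ :=
  fL (pws 1 1 (sq m0 n 0)) fun ps => fN (Nat.mul H (gs ps)) fun g => sqV W H F0 ps g

/-- the arithmetic part of the check -/
def chk (B Hb D N W H n : ℕ) (F0 : List ℕ) (FC : List (List ℕ)) (bl : List Blk) : Bool :=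
  fN (V0 B Hb D N W H n F0 FC bl) fun V =>
    fI (sN (Nat.mod V B) Hb) fun c0 =>
    fL (dec B Hb D (Nat.sub N 1) 1 (Nat.div V B) []) fun acc =>
    fN (abs3 acc) fun c => fN (p111 W H n F0) fun p => fin p c c0

/-- the static part of the check -/
def stat (Hb H d : ℕ) (F0 : List ℕ) (FC : List (List ℕ)) (bl : List Blk) : Bool :=
  Nat.ble F0.length (d + 1) && Nat.ble FC.length (d + 1) && (FC.all fun cs => Nat.ble cs.length (d + 1)) &&
    bl.all (okB d (2 * d)) && Nat.ble (nT H (d + 1) FC bl + 1) Hb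

theorem sound (B Hb D N W H d : ℕ) (F0 : List ℕ) (FC : List (List ℕ)) (bl : List Blk)
    (hB : B = 2 * Hb) (hW : W = 2 * H) (hH : 0 < H) (hD : D = d + 1) (hN : N = D * (D * (2 * d + 1)))
    (hs : stat Hb H d F0 FC bl = true) (hc : chk B Hb D N W H D F0 FC bl = true)
    (E : ℕ → ℕ → ℕ → ℝ) (hE : Sy E) (hE1 : ∀ i j k, |E i j k| ≤ 1320) (hE0 : E 0 0 0 = 1320) :
    120 * (p111 W H D F0 : ℝ) + S E (totP W H D F0 FC bl) < 0 := by
  unfold stat at hs
  rw [Bool.and_eq_true, Bool.and_eq_true, Bool.and_eq_true, Bool.and_eq_true, List.all_eq_true,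
    Nat.ble_eq, Nat.ble_eq, Nat.ble_eq] at hs
  obtain ⟨⟨⟨⟨s1, s2⟩, s3⟩, s4⟩, s5⟩ := hs
  have s3' : ∀ cs ∈ FC, cs.length ≤ d + 1 := fun cs hcs => by
    have := s3 cs hcs
    rwa [Nat.ble_eq] at this
  have hn1 : n1 (totP W H D F0 FC bl) < Hb := by
    rw [hD]
    exact lt_of_le_of_lt (n1_totP W H (d + 1) hW hH F0 FC bl s1 s3') s5
  have hEL : ∀ x ∈ totP W H D F0 FC bl, x.i < D ∧ x.j < D ∧ x.k < 2 * d + 1 := fun x hx => by
    rw [hD] at hx
    have := EL_totP W H d F0 FC bl s2 s4 x hx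
    omega
  generalize hP : totP W H D F0 FC bl = P at hn1 hEL ⊢
  have hD0 : 0 < D := by omega
  have hHb : 0 < Hb := lt_of_le_of_lt (Nat.zero_le _) hn1
  have hcf : ∀ n, |cf D P n| < Hb := fun n => lt_of_le_of_lt (abs_cf D P n) (by exact_mod_cast hn1)
  have hN1 : 1 ≤ N := by
    rw [hN]
    exact Nat.mul_pos hD0 (Nat.mul_pos hD0 (by omega))
  -- the value
  have hV : (V0 B Hb D N W H D F0 FC bl : ℤ) =
      ∑ n ∈ Finset.range N, (cf D P n + Hb) * (B : ℤ) ^ n := by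
    have e0 : totV B D W H D F0 FC bl = ∑ n ∈ Finset.range N, cf D P n * (B : ℤ) ^ n := by
      rw [totV_eq, hP, S_eq_cf (kap B D) D (2 * d + 1) N hN P hEL]
      refine Finset.sum_congr rfl fun n _ => ?_
      have e : key D (n % D) (n / D % D) (n / D / D) = n := by
        unfold key
        rw [Nat.mod_add_div, Nat.mod_add_div]
      unfold kap
      rw [e]
      push_cast
      rfl
    have e1 : (Nat.mul Hb (Nat.div (Nat.sub (Nat.pow B N) 1) (Nat.sub B 1)) : ℕ) =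
        Hb * ∑ n ∈ Finset.range N, B ^ n := by
      rw [Nat.geomSum_eq (by omega : 2 ≤ B)]
      rfl
    unfold V0
    rw [fI_eq, fN_eq, e1]
    have e2 : iadd (totV B D W H D F0 FC bl) (Int.ofNat (Hb * ∑ n ∈ Finset.range N, B ^ n)) =
        ∑ n ∈ Finset.range N, (cf D P n + Hb) * (B : ℤ) ^ n := by
      rw [iadd_eq, e0]
      have e3 : (Int.ofNat (Hb * ∑ n ∈ Finset.range N, B ^ n) : ℤ) =
          ∑ n ∈ Finset.range N, (Hb : ℤ) * (B : ℤ) ^ n := by
        show ((Hb * ∑ n ∈ Finset.range N, B ^ n : ℕ) : ℤ) = _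
        push_cast
        rw [Finset.mul_sum]
      rw [e3, ← Finset.sum_add_distrib]
      exact Finset.sum_congr rfl fun n _ => by ring
    rw [e2]
    refine toN_eq _ (Finset.sum_nonneg fun n _ => mul_nonneg ?_ (by positivity))
    have := (abs_lt.1 (hcf n)).1
    omega
  have hdig := digit_unique B Hb hB (cf D P) hcf N _ hV
  -- unfold the check
  unfold chk at hc
  simp only [fN_eq, fI_eq, fL_eq] at hc
  have hfin := fin_eq _ _ _ hc
  generalize hVV : V0 B Hb D N W H D F0 FC bl = V at hfin hdig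
  rw [sN_eq] at hfin
  have d0 := hdig 0 hN1
  rw [pow_zero, Nat.div_one] at d0
  have hfin' : 120 * (p111 W H D F0 : ℤ) + 1320 * cf D P 0 +
      1320 * (abs3 (dec B Hb D (N - 1) 1 (V / B) []) : ℤ) < 0 := by
    have e : ((Nat.mod V B : ℕ) : ℤ) - Hb = cf D P 0 := by
      show ((V % B : ℕ) : ℤ) - Hb = _
      rw [d0]; ring
    rw [e] at hfin
    exact hfin
  have hfinR : 120 * (p111 W H D F0 : ℝ) + 1320 * (cf D P 0 : ℝ) +
      1320 * (abs3 (dec B Hb D (N - 1) 1 (V / B) []) : ℝ) < 0 := by exact_mod_cast hfin'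
  -- the sum
  have hS : S E P = cf D P 0 * 1320 + sem3 (Ed E) (dec B Hb D (N - 1) 1 (V / B) []) := by
    rw [S_eq_cf E D (2 * d + 1) N hN P hEL, sem_dec B Hb D E hE]
    obtain ⟨M, rfl⟩ : ∃ M, N = M + 1 := ⟨N - 1, by omega⟩
    rw [Finset.sum_range_succ', Nat.add_sub_cancel, add_comm]
    congr 1
    · rw [Nat.zero_mod, Nat.zero_div, Nat.zero_mod, Nat.zero_div, hE0]
    · rw [sem3, zero_add]
      refine Finset.sum_congr rfl fun n hn => ?_
      have := hdig (n + 1) (by have := Finset.mem_range.1 hn; omega)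
      rw [pow_succ', ← Nat.div_div_eq_div_mul] at this
      have e5 : (cf D P (n + 1) : ℝ) = ((V / B / B ^ n % B : ℕ) : ℝ) - Hb := by
        have h6 : (((V / B / B ^ n % B : ℕ) : ℤ) : ℝ) = ((cf D P (n + 1) + Hb : ℤ) : ℝ) := by rw [this]
        rw [Int.cast_natCast, Int.cast_add, Int.cast_natCast] at h6
        linarith
      rw [e5, add_comm n 1]
  have hb := sem3_le 1320 (dec B Hb D (N - 1) 1 (V / B) []) (Ed E) fun a b c => hE1 _ _ _
  have hb2 := le_abs_self (sem3 (Ed E) (dec B Hb D (N - 1) 1 (V / B) []))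
  rw [hS]
  linarith

end

end Pool.Agent.Helper62.SDP
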