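import Pool.Agent.Helper62.SDP.Main
import Pool.Agent.Helper62.SDP.Cert

/-!
# Twelve unit vectors with pairwise inner products at most 1/2 have an almost antipodal pair

`exists_angle`: twelve unit vectors of `ℝ³` with pairwise inner products at most `1/2` contain a pair with
inner product smaller than `-9/10` (angle larger than 154.158 degrees). Three point bound of Bachoc and
Vallentin of degree 10, with sums of squares on the domain `u, v, t ∈ [-9/10, 1/2]`, `Δ(u,v,t) ≥ 0`,
checked in integer arithmetic by the kernel.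
-/

namespace Pool.Agent.Helper62.SDP

theorem bls_nonneg (b : Blk) (hb : b ∈ bls) (u v t : ℝ) (hu : -(9 / 10) ≤ u ∧ u ≤ 1 / 2)
    (ht : -(9 / 10) ≤ t ∧ t ≤ 1 / 2) (hD : 0 ≤ 1 + 2 * u * v * t - u ^ 2 - v ^ 2 - t ^ 2) :
    0 ≤ S (dl u v t) b.m := by
  have h1 : 0 ≤ (10 * u + 9) * (1 - 2 * u) := mul_nonneg (by linarith) (by linarith)
  have h2 : 0 ≤ (10 * t + 9) * (1 - 2 * t) := mul_nonneg (by linarith) (by linarith)
  rcases List.mem_cons.1 hb with rfl | hb
  · simp [bl_s0, dl]
  rcases List.mem_cons.1 hb with rfl | hb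
  · simp only [bl_pu, dl, S_cons, S_nil]
    push_cast
    nlinarith [h1]
  rcases List.mem_cons.1 hb with rfl | hb
  · simp only [bl_De, dl, S_cons, S_nil]
    push_cast
    nlinarith [hD]
  rcases List.mem_cons.1 hb with rfl | hb
  · simp [bl_h0, dl]
  rcases List.mem_cons.1 hb with rfl | hb
  · simp only [bl_h1, dl, S_cons, S_nil]
    push_cast
    nlinarith [h2]
  · simp at hb

theorem exists_angle (x : Fin 12 → EuclideanSpace ℝ (Fin 3)) (hx : ∀ i, ‖x i‖ = 1)
    (h : ∀ i j, i ≠ j → inner ℝ (x i) (x j) ≤ 1 / 2) :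
    ∃ i j, i ≠ j ∧ inner ℝ (x i) (x j) < -(9 / 10) := by
  by_contra hcon
  push Not at hcon
  have h1 := main_ineq (2 ^ 43) (2 ^ 42) 11 F0 FR bls x hx (fun b hb a b' c hD => by
    refine bls_nonneg b hb _ _ _ ⟨hcon _ _ hD.2.1, h _ _ hD.2.1⟩ ⟨hcon _ _ hD.1, h _ _ hD.1⟩ ?_
    obtain ⟨w, hw⟩ := exists_w x hx c
    have e0 : ∀ a, Complex.normSq (w a) = 1 - inner ℝ (x a) (x c) ^ 2 := fun a => by
      have := hw a a
      rw [Complex.mul_conj, Complex.ofReal_re, real_inner_self_eq_norm_sq, hx] at this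
      rw [this]
      ring
    have e1 : (w a * (starRingEnd ℂ) (w b')).re ^ 2 ≤ Complex.normSq (w a * (starRingEnd ℂ) (w b')) := by
      rw [Complex.normSq_apply]
      nlinarith [sq_nonneg (w a * (starRingEnd ℂ) (w b')).im]
    rw [map_mul, Complex.normSq_conj, e0, e0, hw] at e1
    nlinarith [e1])
  have h2 := sound (2 ^ 128) (2 ^ 127) 11 2541 (2 ^ 43) (2 ^ 42) 10 F0 (F0 :: FR) bls (by norm_num)
    (by norm_num) (by norm_num) rfl (by norm_num) stat_ok chk_ok
    (EE fun a b => inner ℝ (x a) (x b)) (EE_sym _ fun a b => real_inner_comm _ _)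
    (EE_le _ fun a b => by
      have := abs_real_inner_le_norm (x a) (x b)
      rwa [hx, hx, one_mul] at this) (EE_zero _)
  linarith

end Pool.Agent.Helper62.SDP
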